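import Pool.Agent.Helper99.DF.St

/-!
# Project DF, module IDE: existence of the identities
-/

set_option autoImplicit false

namespace Pool.Agent.Helper99.DF

open MvPolynomial

/-- The generic sequence. -/
noncomputable def GI (n : ℕ) (k : ℕ) : MvPolynomial (Fin n) ℤ :=
  if h : 1 ≤ k ∧ k < n then X ⟨k, h.2⟩ else 0

/-- The shift map of the generic sequence. -/
noncomputable def PhI (n : ℕ) : MvPolynomial (Fin n) ℤ →+* MvPolynomial (Fin n) ℤ :=
  (aeval (fun i : Fin n => T (GI n) i) : MvPolynomial (Fin n) ℤ →ₐ[ℤ] MvPolynomial (Fin n) ℤ).toRingHom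

theorem PhI_GI (n k : ℕ) : PhI n (GI n k) = T (GI n) k := by
  by_cases h : 1 ≤ k ∧ k < n
  · have : GI n k = X ⟨k, h.2⟩ := by simp [GI, h]
    rw [this]
    show aeval _ (X (⟨k, h.2⟩ : Fin n)) = _
    rw [aeval_X]
  · have h0 : GI n k = 0 := by simp only [GI, dif_neg h]
    rw [h0, map_zero]
    unfold T
    rw [h0]
    by_cases hk : k = 0
    · subst hk
      rw [show (0 : ℕ) - 1 = 0 from rfl, h0]
      simp
    · have : GI n (k + 1) = 0 := by
        unfold GI
        rw [dif_neg (by omega)]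
      rw [this]
      simp

theorem PhI_iter (n j : ℕ) (k : ℕ) : PhI n ((T^[j] (GI n)) k) = (T^[j + 1] (GI n)) k := by
  have h : (fun k => PhI n (GI n k)) = T (GI n) := by
    funext k
    exact PhI_GI n k
  have := congrFun (T_iter_map (PhI n) (GI n) j) k
  rw [← this, h, Function.iterate_succ_apply]

theorem PhI_PT (n : ℕ) (W : List ℕ) (N : ℕ) (p : Pol) (j : ℕ) :
    (PhI n)^[j] (PT W N p (GI n)) = PT W N p (T^[j] (GI n)) := by
  induction j with
  | zero => rfl
  | succ j ih =>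
    rw [Function.iterate_succ_apply', ih, ← PT_map (PhI n)]
    congr 1
    funext k
    exact PhI_iter n j k

/-- Specialisation. -/
noncomputable def spI (n : ℕ) (v : ℕ → ℤ) : MvPolynomial (Fin n) ℤ →+* ℤ :=
  (aeval (fun i : Fin n => v i) : MvPolynomial (Fin n) ℤ →ₐ[ℤ] ℤ).toRingHom

theorem spI_GI (n : ℕ) (v : ℕ → ℤ) (h0 : v 0 = 0) (hn : ∀ k, n ≤ k → v k = 0) (k : ℕ) :
    spI n v (GI n k) = v k := by
  by_cases h : 1 ≤ k ∧ k < n
  · have : GI n k = X ⟨k, h.2⟩ := by simp [GI, h]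
    rw [this]
    show aeval _ (X (⟨k, h.2⟩ : Fin n)) = _
    rw [aeval_X]
  · have hG : GI n k = 0 := by simp only [GI, dif_neg h]
    rw [hG, map_zero]
    by_cases hk : k = 0
    · rw [hk, h0]
    · rw [hn k (by omega)]

theorem spI_iter (n : ℕ) (v : ℕ → ℤ) (h0 : v 0 = 0) (hn : ∀ k, n ≤ k → v k = 0) (j : ℕ) :
    (fun k => spI n v ((T^[j] (GI n)) k)) = T^[j] v := by
  rw [← T_iter_map (spI n v) (GI n) j]
  congr 1
  funext k
  exact spI_GI n v h0 hn k

theorem spI_PT (n : ℕ) (v : ℕ → ℤ) (h0 : v 0 = 0) (hn : ∀ k, n ≤ k → v k = 0) (W : List ℕ) (N : ℕ)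
    (p : Pol) (j : ℕ) : spI n v (PT W N p (T^[j] (GI n))) = PT W N p (T^[j] v) := by
  rw [← PT_map, spI_iter n v h0 hn]

theorem getD_mr {α : Type} (f : ℕ → α) (n a : ℕ) (d : α) (ha : a < n) :
    ((List.range n).map f).getD a d = f a := by
  rw [List.getD_eq_getElem _ _ (by simpa using ha)]
  simp

theorem sum_mr {R : Type} [AddCommMonoid R] (f : ℕ → R) (n : ℕ) :
    ((List.range n).map f).sum = ∑ j ∈ Finset.range n, f j := by
  induction n with
  | zero => simp
  | succ n ih => rw [List.range_succ, List.map_append, List.sum_append, ih, Finset.sum_range_succ]; simp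

theorem hIDE (h1 : StNOE) (h2 : StCOD) : StIDE := by
  intro n N Zs ents
  set d : Ent := (0, [], []) with hd
  obtain ⟨s, hs⟩ := h1 n (PhI n) ents.length
    (fun a => PT (Zs ++ [(ents.getD a d).1]) N (ents.getD a d).2.2 (GI n))
  choose q hq using hs
  choose cod hcod using h2 n
  set qs : List (List (List Pol)) := (List.range ents.length).map (fun a =>
    (List.range (s + 1)).map (fun j => (List.range ents.length).map (fun b =>
      if h : a < ents.length ∧ b < ents.length then cod (q ⟨a, h.1⟩ j ⟨b, h.2⟩) else []))) with hqs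
  have hget : ∀ a j b, ∀ (ha : a < ents.length) (hb : b < ents.length), j < s + 1 →
      ((qs.getD a []).getD j []).getD b [] = cod (q ⟨a, ha⟩ j ⟨b, hb⟩) := by
    intro a j b ha hb hj
    rw [hqs, getD_mr _ _ _ _ ha, getD_mr _ _ _ _ hj, getD_mr _ _ _ _ hb, dif_pos ⟨ha, hb⟩]
  obtain ⟨Dq, hDq⟩ : ∃ Dq : ℕ, ∀ q1 ∈ qs, ∀ q2 ∈ q1, ∀ q ∈ q2, ∀ ce ∈ q, ce.2.sum ≤ Dq := by
    refine ⟨(qs.map (fun q1 => (q1.map (fun q2 => (q2.map (fun q =>
      (q.map (fun ce => ce.2.sum)).sum)).sum)).sum)).sum, ?_⟩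
    intro q1 h1 q2 h2 q h3 ce h4
    have e1 : ce.2.sum ≤ (q.map (fun ce => ce.2.sum)).sum :=
      List.le_sum_of_mem (List.mem_map.mpr ⟨ce, h4, rfl⟩)
    have e2 : (q.map (fun ce => ce.2.sum)).sum ≤ (q2.map (fun q => (q.map (fun ce => ce.2.sum)).sum)).sum :=
      List.le_sum_of_mem (List.mem_map.mpr ⟨q, h3, rfl⟩)
    have e3 : (q2.map (fun q => (q.map (fun ce => ce.2.sum)).sum)).sum ≤
        (q1.map (fun q2 => (q2.map (fun q => (q.map (fun ce => ce.2.sum)).sum)).sum)).sum :=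
      List.le_sum_of_mem (List.mem_map.mpr ⟨q2, h2, rfl⟩)
    have e4 : (q1.map (fun q2 => (q2.map (fun q => (q.map (fun ce => ce.2.sum)).sum)).sum)).sum ≤
        (qs.map (fun q1 => (q1.map (fun q2 => (q2.map (fun q =>
          (q.map (fun ce => ce.2.sum)).sum)).sum)).sum)).sum :=
      List.le_sum_of_mem (List.mem_map.mpr ⟨q1, h1, rfl⟩)
    exact e1.trans (e2.trans (e3.trans e4))
  refine ⟨s, Dq, Dq + 2 * N * (Zs.length + 1) * 2 ^ (s + 1), qs, le_rfl, hDq, ?_⟩
  intro a ha m hm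
  rw [List.mem_range] at ha
  set Dg := Dq + 2 * N * (Zs.length + 1) * 2 ^ (s + 1) with hDg
  set v : ℕ → ℤ := sq (gv n Dg m) with hv
  have h0 : v 0 = 0 := by
    rw [hv]
    unfold sq gv
    by_cases hn : 0 < n
    · rw [List.getD_eq_getElem _ _ (by simpa using hn)]
      simp
    · rw [List.getD_eq_default _ _ (by simpa using hn)]
  have hn : ∀ k, n ≤ k → v k = 0 := by
    intro k hk
    rw [hv]
    exact sq_ge _ _ (by simpa [gv] using hk)
  have hid := hq ⟨a, ha⟩
  simp only [PhI_PT] at hid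
  have hid2 := congrArg (spI n v) hid
  rw [spI_PT n v h0 hn, map_sum] at hid2
  unfold idl
  rw [sq_TL_iter, ← hv, hid2]
  rw [sum_mr]
  refine Finset.sum_congr rfl (fun j hj => ?_)
  rw [Finset.mem_range] at hj
  rw [sum_mr, map_sum, ← Fin.sum_univ_eq_sum_range (fun b => evB (((qs.getD a []).getD j []).getD b []) v *
    PT (Zs ++ [(ents.getD b (0, [], [])).1]) N (ents.getD b (0, [], [])).2.2 (sq (TL^[j] (gv n Dg m))))
    ents.length]
  refine Finset.sum_congr rfl (fun b _ => ?_)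
  rw [map_mul, spI_PT n v h0 hn, hget a j b ha b.2 hj, sq_TL_iter, ← hv, hcod]
  rfl

end Pool.Agent.Helper99.DF
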