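import Pool.Agent.Helper99.DF.St

/-!
# Project DF, module SA: ratios in the region
-/

set_option autoImplicit false

namespace Pool.Agent.Helper99.DF

theorem hSA : StSA := by
  intro n D e0 Cc N Zs lo hi ents b hB hR
  obtain ⟨hB1, hB2, hB3, hB4⟩ := hB
  have hlt : ∀ k, 0 < b k → k < n := by
    intro k hk
    by_contra h
    have := hR.out k (by omega)
    omega
  have key : ∀ k, 0 < b k → (ex lo k : ℤ) * b k ^ 2 ≤ D * (b (k - 1) * b (k + 1)) ∧
      (D : ℤ) * (b (k - 1) * b (k + 1)) ≤ ex hi k * b k ^ 2 := by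
    intro k hk
    have hkn := hlt k hk
    have hZ : (∃ z ∈ Zs, z = k) → (ex lo k : ℤ) * b k ^ 2 ≤ D * (b (k - 1) * b (k + 1)) ∧
        (D : ℤ) * (b (k - 1) * b (k + 1)) ≤ ex hi k * b k ^ 2 := by
      rintro ⟨z, hz, rfl⟩
      obtain ⟨h1, h2⟩ := hB2 z (List.mem_range.mpr hkn) ⟨z, hz, rfl⟩
      obtain ⟨_, h4, h5⟩ := hR.hz z hz
      rw [h1, h2]
      refine ⟨?_, h5⟩
      have : (0 : ℤ) ≤ D * (b (z - 1) * b (z + 1)) := by positivity
      simpa using this
    have hE : (∃ en ∈ ents, en.1 = k) → (ex lo k : ℤ) * b k ^ 2 ≤ D * (b (k - 1) * b (k + 1)) ∧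
        (D : ℤ) * (b (k - 1) * b (k + 1)) ≤ ex hi k * b k ^ 2 := by
      rintro ⟨en, hen, rfl⟩
      obtain ⟨_, _, h5, h6⟩ := hR.hy en hen
      exact ⟨h5, h6⟩
    rcases hR.cl k with h | h | h
    · exact hZ h
    · exact hE h
    · rcases hB3 k (List.mem_range.mpr hkn) with (h' | h') | ⟨h1, h2⟩
      · exact hZ h'
      · exact hE h'
      · rw [h1, h2, h]
        simp
  refine ⟨fun k => ⟨fun hk => ?_, fun hk => ?_⟩, fun k hk => ?_⟩
  · obtain ⟨_, h2⟩ := key k hk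
    obtain ⟨h3, _⟩ := hB1 k (List.mem_range.mpr (hlt k hk))
    have h3' : (ex hi k : ℤ) < D := by exact_mod_cast h3
    have hT : T b k = b k ^ 2 - b (k - 1) * b (k + 1) := rfl
    have hb2 : 0 < b k ^ 2 := by positivity
    have hD : (0 : ℤ) < D := lt_of_le_of_lt (by positivity) h3'
    have : 0 < (D : ℤ) * T b k := by
      rw [hT, mul_sub]
      nlinarith
    exact (pos_iff_pos_of_mul_pos this).mp hD
  · have hT : T b k = b k ^ 2 - b (k - 1) * b (k + 1) := rfl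
    rw [hT, hR.zz k hk, hk]
    simp
  · obtain ⟨h1, h2⟩ := key k hk
    have hT : T b k = b k ^ 2 - b (k - 1) * b (k + 1) := rfl
    refine ⟨h1, h2, ?_, ?_⟩
    · rw [hT, mul_sub, sub_mul]
      linarith
    · rw [hT, mul_sub, sub_mul]
      linarith

end Pool.Agent.Helper99.DF
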