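import Pool.Agent.Helper99.DF.St

/-!
# Project DF, module VER: meaning of the verification
-/

set_option autoImplicit false

namespace Pool.Agent.Helper99.DF

open Pool.Agent.Helper4.IL

theorem evz_cast (p : List ℤ) (n : ℕ) : ((evz p n : ℤ) : ℚ) = ev p n := by
  induction p with
  | nil => simp [evz, ev]
  | cons c p ih =>
    have h1 : evz (c :: p) n = c + n * evz p n := rfl
    have h2 : ev (c :: p) (n : ℚ) = (c : ℚ) + (n : ℚ) * ev p (n : ℚ) := rfl
    rw [h1, h2, ← ih]
    push_cast
    ring

theorem sum_mrV {R : Type} [AddCommMonoid R] (f : ℕ → R) (n : ℕ) :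
    ((List.range n).map f).sum = ∑ j ∈ Finset.range n, f j := by
  induction n with
  | zero => simp
  | succ n ih => rw [List.range_succ, List.map_append, List.sum_append, ih, Finset.sum_range_succ]; simp

theorem ver_rec {x : Inp} {w : ℕ} {l : List ℤ} (h : ver x w l) (n : ℕ)
    (hn : n + x.2.length + 1 < l.length) :
    ∑ j ∈ Finset.range x.1.length, ev (x.1.getD j []) n * (sq l (n + j + 1) : ℚ) = 0 := by
  have := h.2.2.2.2 n (List.mem_range.mpr (by omega)) hn
  rw [sum_mrV] at this
  have h2 := congrArg (Int.cast : ℤ → ℚ) this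
  push_cast at h2
  rw [← h2]
  refine Finset.sum_congr rfl (fun j _ => ?_)
  rw [evz_cast]

theorem ver_val {x : Inp} {a : ℕ → ℚ} (hx : Std x) (ha : Sol x a) {w : ℕ} {l : List ℤ}
    (h : ver x w l) : ∀ k, k + 1 < l.length → (sq l (k + 1) : ℚ) = w * a k := by
  intro k
  induction k using Nat.strong_induction_on with
  | _ k ih =>
    intro hk
    by_cases hkd : k < x.2.length
    · have h1 := h.2.2.2.1 k (List.mem_range.mpr hkd)
      have h2 := congrArg (Int.cast : ℤ → ℚ) h1
      push_cast at h2
      rw [ha.2 k hkd]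
      have h3 : (((x.2.getD k (0, 0)).2 : ℚ) + 1) ≠ 0 := by positivity
      rw [← mul_div_assoc, eq_div_iff h3]
      exact h2
    · obtain ⟨n, rfl⟩ : ∃ n, k = n + x.2.length := ⟨k - x.2.length, by omega⟩
      have h1 := ver_rec h n hk
      have h2 := ha.1 n
      rw [hx.1, Finset.sum_range_succ] at h1 h2
      have h3 : ∑ j ∈ Finset.range x.2.length, ev (x.1.getD j []) n * (sq l (n + j + 1) : ℚ) =
          w * ∑ j ∈ Finset.range x.2.length, ev (x.1.getD j []) n * a (n + j) := by
        rw [Finset.mul_sum]
        refine Finset.sum_congr rfl (fun j hj => ?_)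
        rw [Finset.mem_range] at hj
        rw [ih (n + j) (by omega) (by omega)]
        ring
      have h4 : ev (x.1.getD x.2.length []) n * ((sq l (n + x.2.length + 1) : ℚ) - w * a (n + x.2.length)) = 0 := by
        rw [h3] at h1
        have : ∑ j ∈ Finset.range x.2.length, ev (x.1.getD j []) n * a (n + j) =
          - (ev (x.1.getD x.2.length []) n * a (n + x.2.length)) := by linarith
        rw [this] at h1
        linarith
      have h5 := (mul_eq_zero.mp h4).resolve_left (hx.2 n)
      linarith

theorem ver_fin {x : Inp} {a : ℕ → ℚ} (hx : Std x) (ha : Sol x a) {w : ℕ} {l : List ℤ}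
    (h : ver x w l) (hf : fin0 x l) : ∀ k, l.length ≤ k + 1 + x.2.length → a k = 0 := by
  intro k
  have hd : x.2.length < l.length := h.2.2.1
  induction k using Nat.strong_induction_on with
  | _ k ih =>
    intro hk
    by_cases hkl : k + 1 < l.length
    · have h1 := ver_val hx ha h k hkl
      have h2 := hf (l.length - 2 - k) (List.mem_range.mpr (by omega))
      rw [show l.length - 1 - (l.length - 2 - k) = k + 1 by omega] at h2
      rw [h2] at h1
      have hw : (w : ℚ) ≠ 0 := by
        have := h.1
        positivity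
      have h3 : (w : ℚ) * a k = 0 := by rw [← h1]; simp
      exact (mul_eq_zero.mp h3).resolve_left hw
    · obtain ⟨n, rfl⟩ : ∃ n, k = n + x.2.length := ⟨k - x.2.length, by omega⟩
      have h2 := ha.1 n
      rw [hx.1, Finset.sum_range_succ] at h2
      have h3 : ∑ j ∈ Finset.range x.2.length, ev (x.1.getD j []) n * a (n + j) = 0 := by
        refine Finset.sum_eq_zero (fun j hj => ?_)
        rw [Finset.mem_range] at hj
        rw [ih (n + j) (by omega) (by omega), mul_zero]
      rw [h3, zero_add] at h2
      exact (mul_eq_zero.mp h2).resolve_left (hx.2 n)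

theorem hVER : StVER := by
  intro x a hx ha
  refine ⟨fun w l h => ⟨ver_val hx ha h, fun hf k hk => ver_fin hx ha h hf k (by omega)⟩, fun m => ?_⟩
  set d := x.2.length with hd
  set w : ℕ := ∏ k ∈ Finset.range (m + d + 1), (a k).den with hw
  have hwpos : 0 < w := Finset.prod_pos (fun k _ => (a k).den_pos)
  set z : ℕ → ℤ := fun k => ((w : ℚ) * a k).num with hz
  have hzw : ∀ k, k < m + d + 1 → (z k : ℚ) = w * a k := by
    intro k hk
    obtain ⟨q, hq⟩ : (a k).den ∣ w := Finset.dvd_prod_of_mem _ (Finset.mem_range.mpr hk)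
    have h1 : (w : ℚ) * a k = ((q * (a k).num : ℤ) : ℚ) := by
      have h2 : a k * (a k).den = (a k).num := Rat.mul_den_eq_num (a k)
      rw [hq]
      push_cast
      rw [← h2]
      ring
    show ((((w : ℚ) * a k).num : ℤ) : ℚ) = _
    rw [h1, Rat.num_intCast]
  set l : List ℤ := 0 :: (List.range (m + d + 1)).map z with hl
  have hlen : l.length = m + d + 2 := by simp [hl]
  have hsq : ∀ k, k < m + d + 1 → sq l (k + 1) = z k := by
    intro k hk
    show (0 :: (List.range (m + d + 1)).map z).getD (k + 1) 0 = z k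
    rw [List.getD_cons_succ, List.getD_eq_getElem _ _ (by simpa using hk)]
    simp
  refine ⟨w, l, by omega, ⟨hwpos, rfl, by omega, ?_, ?_⟩, ?_⟩
  · intro k hk
    rw [List.mem_range] at hk
    rw [hsq k (by omega)]
    have h1 := ha.2 k hk
    have h3 : (((x.2.getD k (0, 0)).2 : ℚ) + 1) ≠ 0 := by positivity
    have h4 : (z k : ℚ) * (((x.2.getD k (0, 0)).2 : ℚ) + 1) = w * (x.2.getD k (0, 0)).1 := by
      rw [hzw k (by omega), h1]
      field_simp
    exact_mod_cast h4
  · intro n _ hn
    rw [sum_mrV]
    have h2 := ha.1 n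
    have : ((∑ j ∈ Finset.range x.1.length, evz (x.1.getD j []) n * sq l (n + j + 1) : ℤ) : ℚ) = 0 := by
      push_cast
      rw [← mul_zero (w : ℚ), ← h2, Finset.mul_sum]
      refine Finset.sum_congr rfl (fun j hj => ?_)
      rw [Finset.mem_range, hx.1] at hj
      rw [evz_cast, hsq (n + j) (by omega), hzw (n + j) (by omega)]
      ring
    exact_mod_cast this
  · intro h0 j hj
    rw [List.mem_range] at hj
    rw [show l.length - 1 - j = (m + d - j) + 1 by omega, hsq _ (by omega)]
    show ((w : ℚ) * a (m + d - j)).num = 0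
    rw [h0 _ (by omega)]
    simp

end Pool.Agent.Helper99.DF
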