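import Pool.Agent.Helper99.DF.Def

/-!
# Project DF: basic lemmas
-/

set_option autoImplicit false

namespace Pool.Agent.Helper99.DF

theorem T_map {R S : Type} [CommRing R] [CommRing S] (φ : R →+* S) (b : ℕ → R) :
    T (fun k => φ (b k)) = fun k => φ (T b k) := by
  funext k
  simp [T]

theorem T_iter_map {R S : Type} [CommRing R] [CommRing S] (φ : R →+* S) (b : ℕ → R) (t : ℕ) :
    T^[t] (fun k => φ (b k)) = fun k => φ ((T^[t] b) k) := by
  induction t with
  | zero => rfl
  | succ t ih => rw [Function.iterate_succ_apply', Function.iterate_succ_apply', ih, T_map]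

theorem T_iter_cast (b : ℕ → ℤ) (t k : ℕ) :
    (T^[t] (fun k => (b k : ℝ))) k = (((T^[t] b) k : ℤ) : ℝ) :=
  congrFun (T_iter_map (Int.castRingHom ℝ) b t) k

theorem mon_map {R S : Type} [CommRing R] [CommRing S] (φ : R →+* S) (W : List ℕ) (N : ℕ)
    (e : List ℕ) (b : ℕ → R) : mon W N e (fun k => φ (b k)) = φ (mon W N e b) := by
  unfold mon
  rw [map_list_prod, List.map_map]
  congr 1
  apply List.map_congr_left
  intro k _
  simp

theorem PT_map {R S : Type} [CommRing R] [CommRing S] (φ : R →+* S) (W : List ℕ) (N : ℕ)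
    (p : Pol) (b : ℕ → R) : PT W N p (fun k => φ (b k)) = φ (PT W N p b) := by
  unfold PT
  rw [map_list_sum, List.map_map]
  congr 1
  apply List.map_congr_left
  intro k _
  simp [mon_map]

theorem evB_map {R S : Type} [CommRing R] [CommRing S] (φ : R →+* S)
    (p : Pol) (b : ℕ → R) : evB p (fun k => φ (b k)) = φ (evB p b) := by
  unfold evB
  rw [map_list_sum, List.map_map]
  congr 1
  apply List.map_congr_left
  intro k _
  simp only [Function.comp, map_mul, map_intCast, map_list_prod, List.map_map]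
  congr 2
  apply List.map_congr_left
  intro k _
  simp

theorem sq_ge (l : List ℤ) (k : ℕ) (hk : l.length ≤ k) : sq l k = 0 := by
  unfold sq
  rw [List.getD_eq_default _ _ hk]

theorem length_TL (l : List ℤ) : (TL l).length = l.length := by simp [TL]

theorem sq_TL (l : List ℤ) : sq (TL l) = T (sq l) := by
  funext k
  by_cases hk : k < l.length
  · show (TL l).getD k 0 = _
    unfold TL
    rw [List.getD_eq_getElem _ _ (by simpa using hk)]
    simp
  · push Not at hk
    rw [sq_ge _ _ (by rw [length_TL]; exact hk)]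
    unfold T
    rw [sq_ge l k hk, sq_ge l (k + 1) (by omega)]
    simp

theorem length_TL_iter (l : List ℤ) (t : ℕ) : (TL^[t] l).length = l.length := by
  induction t with
  | zero => rfl
  | succ t ih => rw [Function.iterate_succ_apply', length_TL, ih]

theorem sq_TL_iter (l : List ℤ) (t : ℕ) : sq (TL^[t] l) = T^[t] (sq l) := by
  induction t with
  | zero => rfl
  | succ t ih => rw [Function.iterate_succ_apply', Function.iterate_succ_apply', sq_TL, ih]

theorem T_succ {R : Type} [CommRing R] (b : ℕ → R) (t k : ℕ) :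
    (T^[t + 1] b) k = (T^[t] b) k ^ 2 - (T^[t] b) (k - 1) * (T^[t] b) (k + 1) := by
  rw [Function.iterate_succ_apply']; rfl

theorem mem_act {S : Finset ℕ} {k : ℕ} : k ∈ act S ↔ k ∈ S ∧ k - 1 ∈ S ∧ k + 1 ∈ S := by
  simp [act]

theorem cons_ex_zero (k : ℕ) : ex [] k = 0 := by simp [ex]

theorem Per.pos {S : Finset ℕ} {b : ℕ → ℝ} (h : Per S b) {t k : ℕ} (hk : k ∈ S) :
    0 < (T^[t] b) k := (h.2 t k).1 hk

theorem Per.zero {S : Finset ℕ} {b : ℕ → ℝ} (h : Per S b) {t k : ℕ} (hk : k ∉ S) :
    (T^[t] b) k = 0 := (h.2 t k).2 hk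

theorem Per.shift {S : Finset ℕ} {b : ℕ → ℝ} (h : Per S b) (j : ℕ) : Per S (T^[j] b) := by
  refine ⟨h.1, fun t k => ?_⟩
  rw [← Function.iterate_add_apply]
  exact h.2 _ _

end Pool.Agent.Helper99.DF
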