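import Mathlib
import Pool.Agent.Helper4.IL.Defs
import Pool.Agent.Helper4.IL.IntPrim

/-!
# Project DF: infinite log-concavity of finite rational sequences is decidable (definitions)

Sequences are functions `b : ℕ → R` with `b 0 = 0`; the sequence `a` of the problem is shifted by one
(`b (k+1) = a k`), so that the log-concavity operator is `T b k = b k ^ 2 - b (k-1) * b (k+1)` for all
`k` (at `k = 0` both terms vanish).
-/

set_option autoImplicit false

namespace Pool.Agent.Helper99.DF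

open Filter Topology

/-- The log-concavity operator. -/
def T {R : Type} [CommRing R] (b : ℕ → R) (k : ℕ) : R := b k ^ 2 - b (k - 1) * b (k + 1)

/-- All iterates of `b` have exactly the support `S` and are positive there. -/
def Per (S : Finset ℕ) (b : ℕ → ℝ) : Prop :=
  0 ∉ S ∧ ∀ t k, (k ∈ S → 0 < (T^[t] b) k) ∧ (k ∉ S → (T^[t] b) k = 0)

/-- Active sites: sites of `S` with both neighbours in `S`. -/
def act (S : Finset ℕ) : Finset ℕ := S.filter (fun k => k - 1 ∈ S ∧ k + 1 ∈ S)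

/-- Minus the second difference of `al`. -/
noncomputable def cc (al : ℕ → ℝ) (k : ℕ) : ℝ := 2 * al k - al (k - 1) - al (k + 1)

/-- Normalised iterates. -/
noncomputable def gg (b al : ℕ → ℝ) (t k : ℕ) : ℝ := (T^[t] b) k * Real.exp (-(2 ^ t * al k))

/-- The log-concavity ratio of the `t`-th iterate. -/
noncomputable def uu (b : ℕ → ℝ) (t k : ℕ) : ℝ :=
  (T^[t] b) (k - 1) * (T^[t] b) (k + 1) / ((T^[t] b) k) ^ 2

/-- The asymptotic data of an orbit: rates `al`, limits `F` of the normalised iterates, the set `Z` of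
the active sites with positive rate `cc`, and the exponential rate of convergence. -/
structure Dat (S : Finset ℕ) (b al F : ℕ → ℝ) (Z : Finset ℕ) (c0 C : ℝ) : Prop where
  per : Per S b
  c0pos : 0 < c0
  ZS : Z ⊆ act S
  hZ : ∀ k ∈ Z, c0 ≤ cc al k
  hY : ∀ k ∈ act S \ Z, cc al k = 0
  F1 : ∀ k ∈ S, 1 ≤ F k
  FZ : ∀ k ∈ S, k ∉ act S \ Z → F k = 1
  FY : ∀ k ∈ act S \ Z, F k ^ 2 - F (k - 1) * F (k + 1) = F k
  rate : ∀ t, ∀ k ∈ S, |gg b al t k - F k| ≤ C * Real.exp (-(c0 * 2 ^ t))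

/-- `f t` is, up to an error `O(exp(-M 2^t))`, a polynomial with coefficients in the field `K` in the
quantities `exp(-c_k 2^t)`, `k ∈ Z`. -/
def AE (K : IntermediateField ℚ ℝ) (Z : Finset ℕ) (c : ℕ → ℝ) (M : ℝ) (f : ℕ → ℝ) : Prop :=
  ∃ (p : MvPolynomial Z K) (C : ℝ), ∀ t : ℕ,
    |f t - MvPolynomial.aeval (fun k : Z => Real.exp (-(c k * 2 ^ t))) p| ≤ C * Real.exp (-(M * 2 ^ t))

/-! ### codes -/

/-- Codes of polynomials: lists of terms (coefficient, list of exponents). -/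
abbrev Pol : Type := List (ℤ × List ℕ)

/-- The exponent at site `k`. -/
def ex (e : List ℕ) (k : ℕ) : ℕ := e.getD k 0

/-- The monomial with exponents `e` in the ratios `u_k`, `k ∈ W`, multiplied by the product of the
`b_k ^ (2 N)`. -/
def mon {R : Type} [CommRing R] (W : List ℕ) (N : ℕ) (e : List ℕ) (b : ℕ → R) : R :=
  (W.map (fun k => (b (k - 1) * b (k + 1)) ^ (ex e k) * (b k ^ 2) ^ (N - ex e k))).prod

/-- A polynomial in the ratios `u_k`, `k ∈ W`, multiplied by the product of the `b_k ^ (2 N)`. -/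
def PT {R : Type} [CommRing R] (W : List ℕ) (N : ℕ) (p : Pol) (b : ℕ → R) : R :=
  (p.map (fun ce => (ce.1 : R) * mon W N ce.2 b)).sum

/-- A polynomial in the `b_k`. -/
def evB {R : Type} [CommRing R] (q : Pol) (b : ℕ → R) : R :=
  (q.map (fun ce => (ce.1 : R) *
    ((List.range ce.2.length).map (fun k => b k ^ ex ce.2 k)).prod)).sum

/-- The sequence of a list of integers. -/
def sq (l : List ℤ) (k : ℕ) : ℤ := l.getD k 0

/-- The operator `T` on lists. -/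
def TL (l : List ℤ) : List ℤ := (List.range l.length).map (T (sq l))

/-- Entries of a certificate: a site `i`, the exponents of the leading monomial and the polynomial
`P_i`. -/
abbrev Ent : Type := ℕ × (List ℕ × Pol)

/-- Certificates: ` ((D, e0, N, s), (Cc, Mg, Dq, Dg)), ((Zs, lo, hi, lo2, hi2), (ents, qs))`. -/
abbrev Cert : Type :=
  ((ℕ × ℕ × ℕ × ℕ) × (ℕ × ℕ × ℕ × ℕ)) ×
    ((List ℕ × List ℕ × List ℕ × List ℕ × List ℕ) × (List Ent × List (List (List Pol))))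

/-- Signs and zeros of the integer sequence. -/
def okS (l : List ℤ) : Prop :=
  sq l 0 = 0 ∧ ∀ k ∈ List.range l.length,
    0 ≤ sq l k ∧ (sq l k = 0 → sq l (k - 1) * sq l (k + 1) = 0)

/-- Every site is a `Z`-site, an entry site or inactive. -/
def okC (l : List ℤ) (Zs : List ℕ) (ents : List Ent) : Prop :=
  ∀ k ∈ List.range l.length, (∃ z ∈ Zs, z = k) ∨ (∃ en ∈ ents, en.1 = k) ∨
    sq l (k - 1) * sq l (k + 1) = 0

/-- Conditions at the `Z`-sites: `0 < u_k ≤ e0 / D`. -/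
def okZ (l : List ℤ) (D e0 : ℕ) (Zs : List ℕ) : Prop :=
  ∀ k ∈ Zs, k < l.length ∧ 0 < sq l (k - 1) * sq l (k + 1) ∧
    (D : ℤ) * (sq l (k - 1) * sq l (k + 1)) ≤ e0 * sq l k ^ 2

/-- Conditions at the entry sites: `lo_i / D ≤ u_i ≤ hi_i / D`. -/
def okY (l : List ℤ) (D : ℕ) (lo hi : List ℕ) (ents : List Ent) : Prop :=
  ∀ en ∈ ents, en.1 < l.length ∧ 0 < sq l (en.1 - 1) * sq l (en.1 + 1) ∧
    (ex lo en.1 : ℤ) * sq l en.1 ^ 2 ≤ D * (sq l (en.1 - 1) * sq l (en.1 + 1)) ∧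
    (D : ℤ) * (sq l (en.1 - 1) * sq l (en.1 + 1)) ≤ ex hi en.1 * sq l en.1 ^ 2

/-- Static conditions on the box of all sites below `n`. -/
def okB (n D e0 Cc : ℕ) (Zs lo hi : List ℕ) (ents : List Ent) : Prop :=
  (∀ k ∈ List.range n, ex hi k < D ∧ D ^ 2 ≤ Cc * (D - ex hi k) ^ 2) ∧
  (∀ k ∈ List.range n, (∃ z ∈ Zs, z = k) → ex lo k = 0 ∧ ex hi k = e0) ∧
  (∀ k ∈ List.range n, ((∃ z ∈ Zs, z = k) ∨ (∃ en ∈ ents, en.1 = k)) ∨ (ex lo k = 0 ∧ ex hi k = 0)) ∧
  (∀ en ∈ ents, (¬ ∃ z ∈ Zs, z = en.1) ∧ 0 < ex lo en.1 ∧ ex lo en.1 ≤ ex hi en.1)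

/-- Static conditions: `T` maps the box into the outer box. -/
def okO (D : ℕ) (lo hi lo2 hi2 : List ℕ) (ents : List Ent) : Prop :=
  ∀ en ∈ ents,
    ex lo2 en.1 * D * (D - ex lo en.1) ^ 2
      ≤ ex lo en.1 ^ 2 * ((D - ex hi (en.1 - 1)) * (D - ex hi (en.1 + 1))) ∧
    ex hi en.1 ^ 2 * ((D - ex lo (en.1 - 1)) * (D - ex lo (en.1 + 1)))
      ≤ ex hi2 en.1 * D * (D - ex hi en.1) ^ 2 ∧
    ex hi2 en.1 ≤ D

/-- Sum of the absolute values of the coefficients. -/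
def nrm (p : Pol) : ℕ := (p.map (fun ce => ce.1.natAbs)).sum

/-- `D X^N P⁰(m/X)`-type quantity: the terms with leading `Z`-part evaluated at `m / X`, times `X^N`. -/
def P0 (Zs : List ℕ) (i N X m : ℕ) (ga : List ℕ) (p : Pol) : ℤ :=
  (p.map (fun ce => if (∀ k ∈ Zs, ex ce.2 k = ex ga k) then
    ce.1 * (m : ℤ) ^ (ex ce.2 i) * (X : ℤ) ^ (N - ex ce.2 i) else 0)).sum

/-- Static conditions: the leading polynomials have no zeros in the shells. -/
def okM (D e0 N Mg : ℕ) (Zs lo hi lo2 hi2 : List ℕ) (ents : List Ent) : Prop :=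
  ∀ en ∈ ents, ∀ m ∈ List.range (Mg * D + 1),
    ((ex lo2 en.1 * Mg ≤ m ∧ m ≤ ex lo en.1 * Mg) ∨ (ex hi en.1 * Mg ≤ m ∧ m ≤ ex hi2 en.1 * Mg)) →
      e0 * nrm en.2.2 * (Mg * D) ^ N + D * N * nrm en.2.2 * (Mg * D) ^ (N - 1)
        < D * (P0 Zs en.1 N (Mg * D) m en.2.1 en.2.2).natAbs

/-- Static condition: `e0 / D` is very small. -/
def okD (D e0 N Cc Mg : ℕ) (Zs : List ℕ) : Prop :=
  0 < D ∧ 0 < Mg ∧ e0 * Cc ^ (2 * N * Zs.length + 1) ≤ D

/-- Exponents are at most `N`, and the monomial inequalities hold. -/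
def okR (l : List ℤ) (D e0 N : ℕ) (Zs : List ℕ) (ents : List Ent) : Prop :=
  ∀ en ∈ ents, (∀ k ∈ Zs, ex en.2.1 k ≤ N) ∧ ∀ ce ∈ en.2.2,
    (∀ k ∈ Zs, ex ce.2 k ≤ N) ∧ ex ce.2 en.1 ≤ N ∧
      ((∀ k ∈ Zs, ex ce.2 k = ex en.2.1 k) ∨
        (D : ℤ) * mon Zs N ce.2 (sq l) ≤ e0 * mon Zs N en.2.1 (sq l))

/-- The polynomials vanish at the first iterates. -/
def okP (l : List ℤ) (N s : ℕ) (Zs : List ℕ) (ents : List Ent) : Prop :=
  ∀ en ∈ ents, ∀ j ∈ List.range (s + 1), PT (Zs ++ [en.1]) N en.2.2 (sq (TL^[j] l)) = 0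

/-- The `m`-th point of the grid `{0,...,Dg}^n` (with value 0 at site 0). -/
def gv (n Dg m : ℕ) : List ℤ :=
  (List.range n).map (fun k => if k = 0 then 0 else (((m / (Dg + 1) ^ k) % (Dg + 1) : ℕ) : ℤ))

/-- The polynomial identity `P_a ∘ T^(s+1) = ∑ q_(a,j,b) P_b ∘ T^j` at one point. -/
def idn {R : Type} [CommRing R] (N s : ℕ) (Zs : List ℕ) (ents : List Ent)
    (qs : List (List (List Pol))) (v : ℕ → R) (a : ℕ) : Prop :=
  PT (Zs ++ [(ents.getD a (0, [], [])).1]) N (ents.getD a (0, [], [])).2.2 (T^[s + 1] v) =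
    ((List.range (s + 1)).map (fun j => ((List.range ents.length).map (fun b =>
      evB (((qs.getD a []).getD j []).getD b []) v *
        PT (Zs ++ [(ents.getD b (0, [], [])).1]) N (ents.getD b (0, [], [])).2.2 (T^[j] v))).sum)).sum

/-- The same on lists (this is what is computed). -/
def idl (N s : ℕ) (Zs : List ℕ) (ents : List Ent)
    (qs : List (List (List Pol))) (v : List ℤ) (a : ℕ) : Prop :=
  PT (Zs ++ [(ents.getD a (0, [], [])).1]) N (ents.getD a (0, [], [])).2.2 (sq (TL^[s + 1] v)) =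
    ((List.range (s + 1)).map (fun j => ((List.range ents.length).map (fun b =>
      evB (((qs.getD a []).getD j []).getD b []) (sq v) *
        PT (Zs ++ [(ents.getD b (0, [], [])).1]) N (ents.getD b (0, [], [])).2.2
          (sq (TL^[j] v)))).sum)).sum

/-- The identities hold on a grid which is larger than the degrees. -/
def okI (n N s Dq Dg : ℕ) (Zs : List ℕ) (ents : List Ent) (qs : List (List (List Pol))) : Prop :=
  Dq + 2 * N * (Zs.length + 1) * 2 ^ (s + 1) ≤ Dg ∧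
  (∀ q1 ∈ qs, ∀ q2 ∈ q1, ∀ q ∈ q2, ∀ ce ∈ q, ce.2.sum ≤ Dq) ∧
  (∀ a ∈ List.range ents.length, ∀ m ∈ List.range ((Dg + 1) ^ n), idl N s Zs ents qs (gv n Dg m) a)

/-- The certificate check. -/
def chk (l : List ℤ) (c : Cert) : Prop :=
  let D := c.1.1.1; let e0 := c.1.1.2.1; let N := c.1.1.2.2.1; let s := c.1.1.2.2.2
  let Cc := c.1.2.1; let Mg := c.1.2.2.1; let Dq := c.1.2.2.2.1; let Dg := c.1.2.2.2.2
  let Zs := c.2.1.1; let lo := c.2.1.2.1; let hi := c.2.1.2.2.1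
  let lo2 := c.2.1.2.2.2.1; let hi2 := c.2.1.2.2.2.2
  let ents := c.2.2.1; let qs := c.2.2.2
  okS l ∧ okC l Zs ents ∧ okZ l D e0 Zs ∧ okY l D lo hi ents ∧ okB l.length D e0 Cc Zs lo hi ents ∧
    okO D lo hi lo2 hi2 ents ∧ okM D e0 N Mg Zs lo hi lo2 hi2 ents ∧ okD D e0 N Cc Mg Zs ∧
    okR l D e0 N Zs ents ∧ okP l N s Zs ents ∧ okI l.length N s Dq Dg Zs ents qs

end Pool.Agent.Helper99.DF
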