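import Pool.Agent.Helper99.DF.St

/-!
# Project DF, module LST: finite lists of rational numbers
-/

set_option autoImplicit false

namespace Pool.Agent.Helper99.DF

open Pool.Agent.Helper4.IL

/-- The finite sequence described by a list ` (z, w)`, ..., standing for `z / (w + 1)`, ..., extended by
zeros. -/
def seqL (l : List (ℤ × ℕ)) (k : ℕ) : ℚ := ((l.getD k (0, 0)).1 : ℚ) / (((l.getD k (0, 0)).2 : ℚ) + 1)

/-- The input of the problem which describes a finite sequence: the recurrence is `a_(n+d) = 0`. -/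
def inpL (l : List (ℤ × ℕ)) : Inp := (l.map (fun _ => []) ++ [[1]], l)

theorem primrec_inpL : Primrec inpL := by
  unfold inpL
  refine Primrec.pair ?_ Primrec.id
  exact Primrec.list_append.comp (Primrec.list_map Primrec.id (Primrec.const []).to₂) (Primrec.const _)

theorem getD_inpL (l : List (ℤ × ℕ)) (j : ℕ) (hj : j < l.length) : (inpL l).1.getD j [] = [] := by
  unfold inpL
  rw [List.getD_append _ _ _ _ (by simpa using hj), List.getD_eq_getElem _ _ (by simpa using hj)]
  simp

theorem getD_inpL' (l : List (ℤ × ℕ)) : (inpL l).1.getD l.length [] = [1] := by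
  unfold inpL
  rw [List.getD_append_right _ _ _ _ (by simp)]
  simp

theorem Std_inpL (l : List (ℤ × ℕ)) : Std (inpL l) := by
  refine ⟨by simp [inpL], fun n => ?_⟩
  show ev ((inpL l).1.getD l.length []) n ≠ 0
  rw [getD_inpL']
  simp [ev]

theorem seqL_zero (l : List (ℤ × ℕ)) (k : ℕ) (hk : l.length ≤ k) : seqL l k = 0 := by
  unfold seqL
  rw [List.getD_eq_default _ _ hk]
  simp

theorem Sol_inpL (l : List (ℤ × ℕ)) : Sol (inpL l) (seqL l) := by
  refine ⟨fun n => ?_, fun k _ => rfl⟩
  rw [show (inpL l).1.length = l.length + 1 by simp [inpL], Finset.sum_range_succ]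
  rw [Finset.sum_eq_zero, seqL_zero l (n + l.length) (by omega)]
  · simp
  · intro j hj
    rw [Finset.mem_range] at hj
    rw [getD_inpL l j hj]
    simp [ev]

theorem hLST (h : StFIN) : ComputablePred (fun l : List (ℤ × ℕ) => InfLC (seqL l)) := by
  obtain ⟨g, hg, h⟩ := h
  refine ⟨Classical.decPred _, ?_⟩
  have h1 : Partrec (fun l => g (inpL l)) := hg.comp primrec_inpL.to_comp
  refine Partrec.of_eq h1 (fun l => ?_)
  obtain ⟨h2, h3, _⟩ := h (inpL l) (Std_inpL l) (seqL l) (Sol_inpL l)
  have h4 := h3 ⟨l.length, fun n hn => seqL_zero l n hn⟩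
  have h5 := h2 _ (Part.get_mem h4)
  rw [← Part.some_get h4]
  show Part.some _ = Part.some _
  congr 1
  by_cases h6 : InfLC (seqL l)
  · rw [h5.mpr h6]
    simp [h6]
  · have h8 : (g (inpL l)).get h4 = false :=
      Bool.eq_false_iff.mpr (fun h7 => h6 (h5.mp h7))
    rw [h8]
    simp [h6]

end Pool.Agent.Helper99.DF
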