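import Pool.Agent.Helper99.DF.St

/-!
# Project DF, module SOL: solving the linear system in the ring of expansions
-/

set_option autoImplicit false

namespace Pool.Agent.Helper99.DF

theorem hSOL (h1 : StLAM) (h2 : StAE1) : StSOL := by
  intro K Z c M hc hM S Y F θ R hYS hYn hF1 hFK hFr hR1 hR2 hAE
  obtain ⟨hadd, hmul, hconst, -⟩ := h2 K Z c M hc hM
  classical
  set FK : ℕ → K := fun k => if h : k ∈ S then ⟨F k, hFK k h⟩ else 0 with hFKd
  have hFKv : ∀ k ∈ S, ((FK k : K) : ℝ) = F k := by
    intro k hk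
    simp [hFKd, hk]
  set A : Matrix S S K := fun k j => if (k : ℕ) ∈ Y then
    2 * FK k * (if (j : ℕ) = k then 1 else 0) - FK (k - 1) * (if (j : ℕ) = k + 1 then 1 else 0)
      - FK (k + 1) * (if (j : ℕ) = k - 1 then 1 else 0)
    else 2 * (if (j : ℕ) = k then 1 else 0) with hA
  have h2c : (((2 : K) : K) : ℝ) = 2 := rfl
  have hact : ∀ (v : ℕ → ℝ) (k : S), ∑ j : S, ((A k j : K) : ℝ) * v j =
      if (k : ℕ) ∈ Y then 2 * F k * v k - F (k - 1) * v (k + 1) - F (k + 1) * v (k - 1)
      else 2 * v k := by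
    intro v k
    have hk := k.2
    by_cases hY : (k : ℕ) ∈ Y
    · rw [if_pos hY]
      have hn := hYn k hY
      have e1 : ∀ j : S, ((A k j : K) : ℝ) * v j =
          (fun j : ℕ => 2 * F k * (if j = k then v j else 0) - F (k - 1) * (if j = k + 1 then v j else 0)
            - F (k + 1) * (if j = k - 1 then v j else 0)) j := by
        intro j
        simp only [hA, if_pos hY]
        push_cast
        rw [hFKv k hk, hFKv _ hn.1, hFKv _ hn.2, h2c]
        split_ifs <;> simp <;> ring
      rw [Finset.sum_congr rfl (fun j _ => e1 j), Finset.sum_coe_sort S (fun j : ℕ =>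
        2 * F k * (if j = k then v j else 0) - F (k - 1) * (if j = k + 1 then v j else 0)
            - F (k + 1) * (if j = k - 1 then v j else 0)),
        Finset.sum_sub_distrib, Finset.sum_sub_distrib, ← Finset.mul_sum, ← Finset.mul_sum,
        ← Finset.mul_sum, Finset.sum_ite_eq', Finset.sum_ite_eq', Finset.sum_ite_eq',
        if_pos hk, if_pos hn.1, if_pos hn.2]
    · rw [if_neg hY]
      have e1 : ∀ j : S, ((A k j : K) : ℝ) * v j =
          (fun j : ℕ => 2 * (if j = k then v j else 0)) j := by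
        intro j
        simp only [hA, if_neg hY]
        push_cast
        rw [h2c]
        split_ifs <;> simp
      rw [Finset.sum_congr rfl (fun j _ => e1 j), Finset.sum_coe_sort S (fun j : ℕ =>
        2 * (if j = k then v j else 0)), ← Finset.mul_sum, Finset.sum_ite_eq', if_pos hk]
  have hinj : Function.Injective A.mulVec := by
    refine (injective_iff_map_eq_zero (A.mulVecLin)).mpr ?_
    intro τ hτ
    set v : ℕ → ℝ := fun k => if h : k ∈ S then ((τ ⟨k, h⟩ : K) : ℝ) else 0 with hv
    have hvv : ∀ k : S, v k = ((τ k : K) : ℝ) := by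
      intro k
      simp [hv]
    have h0 : ∀ k : S, ∑ j : S, ((A k j : K) : ℝ) * v j = 0 := by
      intro k
      have h3 : ∑ j : S, A k j * τ j = 0 := congrFun hτ k
      have h4 := congrArg (algebraMap K ℝ) h3
      rw [map_sum, map_zero] at h4
      rw [← h4]
      refine Finset.sum_congr rfl (fun j _ => ?_)
      rw [hvv j, map_mul]
      rfl
    have h5 := h1 S Y F v hYS hYn hF1 hFr ?_ ?_
    · funext k
      have := h5 k k.2
      rw [hvv k] at this
      exact_mod_cast this
    · intro k hk hkY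
      have := h0 ⟨k, hk⟩
      rw [hact v ⟨k, hk⟩, if_neg hkY] at this
      simpa using this
    · intro k hk
      have := h0 ⟨k, hYS hk⟩
      rw [hact v ⟨k, hYS hk⟩, if_pos hk] at this
      linarith
  have hunit : IsUnit A := Matrix.mulVec_injective_iff_isUnit.mp hinj
  have hinv : A⁻¹ * A = 1 := Matrix.nonsing_inv_mul A ((Matrix.isUnit_iff_isUnit_det A).mp hunit)
  have hsol : ∀ t, ∀ i : S, θ t i = ∑ k : S, (((A⁻¹) i k : K) : ℝ) * R t k := by
    intro t i
    have e : ∀ k : S, R t k = ∑ j : S, ((A k j : K) : ℝ) * θ t j := by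
      intro k
      rw [hact (θ t) k]
      by_cases hY : (k : ℕ) ∈ Y
      · rw [if_pos hY, hR2 t k hY]
      · rw [if_neg hY, hR1 t k k.2 hY]
    have e2 : ∀ j : S, ∑ k : S, (((A⁻¹) i k : K) : ℝ) * ((A k j : K) : ℝ) = if i = j then 1 else 0 := by
      intro j
      have h3 : ∑ k : S, (A⁻¹) i k * A k j = (1 : Matrix S S K) i j := by
        rw [← hinv, Matrix.mul_apply]
      have h4 := congrArg (algebraMap K ℝ) h3
      rw [map_sum, Matrix.one_apply] at h4
      rw [apply_ite (algebraMap K ℝ), map_one, map_zero] at h4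
      rw [← h4]
      refine Finset.sum_congr rfl (fun k _ => ?_)
      rw [map_mul]
      rfl
    calc θ t i = ∑ j : S, (if i = j then 1 else 0) * θ t j := by simp
      _ = ∑ j : S, (∑ k : S, (((A⁻¹) i k : K) : ℝ) * ((A k j : K) : ℝ)) * θ t j := by
          refine Finset.sum_congr rfl (fun j _ => ?_)
          rw [e2 j]
      _ = ∑ j : S, ∑ k : S, (((A⁻¹) i k : K) : ℝ) * ((A k j : K) : ℝ) * θ t j := by
          refine Finset.sum_congr rfl (fun j _ => ?_)
          rw [Finset.sum_mul]
      _ = ∑ k : S, ∑ j : S, (((A⁻¹) i k : K) : ℝ) * ((A k j : K) : ℝ) * θ t j := Finset.sum_comm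
      _ = ∑ k : S, (((A⁻¹) i k : K) : ℝ) * R t k := by
          refine Finset.sum_congr rfl (fun k _ => ?_)
          rw [e k, Finset.mul_sum]
          refine Finset.sum_congr rfl (fun j _ => ?_)
          ring
  intro k hk
  have hfin : ∀ s : Finset S, AE K Z c M (fun t => ∑ j ∈ s, (((A⁻¹) ⟨k, hk⟩ j : K) : ℝ) * R t j) := by
    intro s
    induction s using Finset.induction_on with
    | empty =>
      simpa using hconst 0 K.zero_mem
    | insert a s ha ih =>
      have : (fun t => ∑ j ∈ insert a s, (((A⁻¹) ⟨k, hk⟩ j : K) : ℝ) * R t j) =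
          fun t => ((((A⁻¹) ⟨k, hk⟩ a : K) : ℝ) * R t a) + ∑ j ∈ s, (((A⁻¹) ⟨k, hk⟩ j : K) : ℝ) * R t j := by
        funext t
        rw [Finset.sum_insert ha]
      rw [this]
      exact hadd _ _ (hmul _ _ (hconst _ ((A⁻¹) ⟨k, hk⟩ a).2) (hAE a a.2)) ih
  have := hfin Finset.univ
  have he : (fun t => θ t k) = fun t => ∑ j : S, (((A⁻¹) ⟨k, hk⟩ j : K) : ℝ) * R t j := by
    funext t
    exact hsol t ⟨k, hk⟩
  rw [he]
  exact this

end Pool.Agent.Helper99.DF
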