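import Pool.Agent.Helper99.DF.Ba

/-!
# Project DF (MP_d49380_lc): statements of the modules, with complete proofs

THEOREM: infinite log-concavity is decidable for all P-recursive inputs whose sequence has finite
support.  `T b k = b k ^ 2 - b (k-1) * b (k+1)`.  Files: `Def.lean` (definitions), `Ba.lean` (basic
lemmas: `T_succ`, `T_iter_cast`, `sq_TL_iter`, `mon_map`, `PT_map`, `evB_map`, `Per.pos`, ...).
-/

set_option autoImplicit false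

namespace Pool.Agent.Helper99.DF

open Filter Topology

/-! ## AN: the asymptotics of an orbit -/

/-- A combinatorial bound.  PROOF. Let `k0` minimise `v` on `0..n+1` and `m = v k0`; if `m ≥ 1/2` done.
Otherwise `1 ≤ k0 ≤ n`.  Claim: if `v (k0+j) < 1/2` for all `j ≤ i` then `v (k0+i+1) ≤ 4^(i+1) v (k0+i)`.
`i = 0`: `v(k0-1) v(k0+1) / 4 ≤ v(k0)^2` and `v(k0-1) ≥ v(k0) > 0`.  Step: `v(k0+i) v(k0+i+2) / 4 ≤
v(k0+i+1)^2 ≤ v(k0+i+1) 4^(i+1) v(k0+i)`.  Let `i1` be the first index with `v(k0+i1) ≥ 1/2` (it exists,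
`i1 ≤ n`, because `v (n+1) = 1`): `1/2 ≤ v(k0+i1) ≤ 4^(i1(i1+1)/2) m ≤ 4^((n+2)^2) m`. -/
def StVB : Prop :=
  ∀ (n : ℕ) (v : ℕ → ℝ), (∀ k, 0 < v k ∧ v k ≤ 1) → v 0 = 1 → (∀ k, n < k → v k = 1) →
    (∀ k, 1 ≤ k → v (k - 1) * v (k + 1) * (1 - v k) ^ 2 ≤ v k ^ 2) →
    ∀ k, (1 / 2 : ℝ) * (1 / 4) ^ ((n + 2) ^ 2) ≤ v k

/-- Uniform gap.  PROOF. For fixed `t` put `b = T^[t] b`, `b' = T b`, `b'' = T b'` and `v k = b' k / (b k)^2`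
for `k ∈ S`, `v k = 1` for `k ∉ S`.  `0 < v ≤ 1` since `b' k = (b k)^2 - b(k-1) b(k+1)` and all values are
`≥ 0`.  For `k ∈ act S`: `1 - v k = b(k-1) b(k+1) / (b k)^2`, so `v(k-1) v(k+1) (1 - v k)^2 =
b'(k-1) b'(k+1) / (b k)^4 < (b' k)^2 / (b k)^4 = (v k)^2` because `b'' k > 0`.  For `k ∉ act S`: `v k = 1`
(for `k ∈ S` one of the neighbours is `0`).  Apply `StVB` with `n = S.sup id`. -/
def StA1 : Prop :=
  ∀ (S : Finset ℕ) (b : ℕ → ℝ), Per S b →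
    ∃ ε : ℝ, 0 < ε ∧ ε ≤ 1 ∧ ∀ t, ∀ k ∈ S, ε * ((T^[t] b) k) ^ 2 ≤ (T^[t + 1] b) k

/-- Rates.  PROOF. For `k ∈ S` put `x t = (T^[t] b) k > 0`; `ε x^2 ≤ x(t+1) ≤ x^2` (`StA1`; the upper bound
because all values are `≥ 0`).  `a t = 2^(-t) log x t` is nonincreasing and `a (t+1) ≥ a t + 2^(-t-1) log ε`,
so it converges to some `α ≤ a t` and `a t - α ≤ 2^(-t) log (1/ε)`, i.e. `exp(2^t α) ≤ x t ≤ ε⁻¹ exp(2^t α)`.
`G = ε⁻¹`. -/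
def StA2 : Prop :=
  ∀ (S : Finset ℕ) (b : ℕ → ℝ), Per S b →
    ∃ (al : ℕ → ℝ) (G : ℝ), 1 ≤ G ∧ ∀ t, ∀ k ∈ S,
      Real.exp (2 ^ t * al k) ≤ (T^[t] b) k ∧ (T^[t] b) k ≤ G * Real.exp (2 ^ t * al k)

/-- Recursion of the normalised iterates.  PROOF. `T_succ`, multiply by `exp(-(2^(t+1) al k))`; if
`k ∉ act S` one of the neighbours is not in `S`, so its value is `0`. -/
def StGR : Prop :=
  ∀ (S : Finset ℕ) (b al : ℕ → ℝ), Per S b → ∀ t, ∀ k ∈ S,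
    (k ∈ act S → gg b al (t + 1) k = gg b al t k ^ 2 -
      Real.exp (-(2 ^ t * cc al k)) * (gg b al t (k - 1) * gg b al t (k + 1))) ∧
    (k ∉ act S → gg b al (t + 1) k = gg b al t k ^ 2)

/-- Concavity of the rates.  PROOF. `b(k-1) b(k+1) < (b k)^2` at all times (the next iterate is positive),
so `exp(2^t (al(k-1) + al(k+1))) ≤ G^2 exp(2^t 2 al k)`, i.e. `exp(-(2^t cc al k)) ≤ G^2` for all `t`. -/
def StA3 : Prop :=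
  ∀ (S : Finset ℕ) (b al : ℕ → ℝ) (G : ℝ), Per S b → 1 ≤ G →
    (∀ t, ∀ k ∈ S, Real.exp (2 ^ t * al k) ≤ (T^[t] b) k ∧ (T^[t] b) k ≤ G * Real.exp (2 ^ t * al k)) →
    ∀ k ∈ act S, 0 ≤ cc al k

/-- MONOTONICITY (the key point).  PROOF. `1 ≤ gg ≤ G` on `S`.  Let `D t = max_{k ∈ S} log (gg(t+1,k)/gg(t,k))`
and suppose `D t > 0`, attained at `k`.  If `k ∉ act S`: `gg(t+2,k)/gg(t+1,k) = (gg(t+1,k)/gg(t,k))^2 =
e^(2D)`.  If `k ∈ act S`, with `E = exp(-(2^t cc al k)) ∈ (0,1]`, `exp(-(2^(t+1) cc)) = E^2 ≤ E` and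
`gg(t+1,k±1) ≤ e^D gg(t,k±1)`: `gg(t+2,k) = gg(t+1,k)^2 - E^2 gg(t+1,k-1) gg(t+1,k+1) ≥
e^(2D) (gg(t,k)^2 - E gg(t,k-1) gg(t,k+1)) = e^(2D) gg(t+1,k)`.  So `D(t+1) ≥ 2 D t`, hence
`D(t+j) ≥ 2^j D t`, which contradicts `D ≤ log G`. -/
def StA4 : Prop :=
  ∀ (S : Finset ℕ) (b al : ℕ → ℝ) (G : ℝ), Per S b → 1 ≤ G →
    (∀ t, ∀ k ∈ S, Real.exp (2 ^ t * al k) ≤ (T^[t] b) k ∧ (T^[t] b) k ≤ G * Real.exp (2 ^ t * al k)) →
    (∀ k ∈ act S, 0 ≤ cc al k) → ∀ t, ∀ k ∈ S, gg b al (t + 1) k ≤ gg b al t k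

/-- Limits.  PROOF. `gg b al t k` is nonincreasing in `t` (hypothesis) and `≥ 1`: it converges to `F k ≥ 1`.
Pass to the limit in `StGR`: if `k ∉ act S`: `F = F^2`; if `cc al k > 0` then `exp(-(2^t cc)) → 0` and
`F = F^2`, so `F = 1`; if `cc al k = 0`: `F k = (F k)^2 - F(k-1) F(k+1)`. -/
def StA5 : Prop :=
  ∀ (S : Finset ℕ) (b al : ℕ → ℝ) (G : ℝ), Per S b → 1 ≤ G →
    (∀ t, ∀ k ∈ S, Real.exp (2 ^ t * al k) ≤ (T^[t] b) k ∧ (T^[t] b) k ≤ G * Real.exp (2 ^ t * al k)) →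
    (∀ k ∈ act S, 0 ≤ cc al k) → (∀ t, ∀ k ∈ S, gg b al (t + 1) k ≤ gg b al t k) →
    ∃ F : ℕ → ℝ, ∀ k ∈ S, 1 ≤ F k ∧ (∀ t, F k ≤ gg b al t k) ∧
      ((k ∉ act S ∨ 0 < cc al k) → F k = 1) ∧
      (k ∈ act S → cc al k = 0 → F k ^ 2 - F (k - 1) * F (k + 1) = F k)

/-- Rate of convergence.  PROOF. `1 ≤ F ≤ gg ≤ G` on `S`.  Let `D t = max_{k ∈ S} log (gg(t,k)/F k) ≥ 0`,
attained at `k`, `E = exp(-(c0 2^t))`.  If `k ∉ act S`: `gg(t+1,k)/F k = e^(2D) F k ≥ e^(2D)`.  If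
`cc al k = 0`: `gg(t+1,k) = gg^2 - gg gg ≥ e^(2D) (F k^2 - F(k-1) F(k+1)) = e^(2D) F k` (using
`gg(t,k±1) ≤ e^D F(k±1)`).  If `cc al k > 0`, `F k = 1`: `gg(t+1,k) ≥ e^(2D) - E G^2 ≥ e^(2D) (1 - E G^2)`.
So `D(t+1) ≥ 2 D t + log(1 - E G^2) ≥ 2 D t - 2 E G^2` as soon as `E G^2 ≤ 1/2` (all `t ≥ t0`), i.e.
`D t ≤ D(t+1)/2 + E(t) G^2`; iterate, `D ≤ log G` bounded and `E` decreasing: `D t ≤ 2 G^2 E(t)` for
`t ≥ t0`.  `0 ≤ gg - F ≤ G (e^D - 1) ≤ G^2 D`.  For `t < t0` enlarge the constant. (`S` may be empty.) -/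
def StA6 : Prop :=
  ∀ (S : Finset ℕ) (b al : ℕ → ℝ) (G : ℝ) (F : ℕ → ℝ) (c0 : ℝ), Per S b → 1 ≤ G →
    (∀ t, ∀ k ∈ S, Real.exp (2 ^ t * al k) ≤ (T^[t] b) k ∧ (T^[t] b) k ≤ G * Real.exp (2 ^ t * al k)) →
    (∀ k ∈ act S, 0 ≤ cc al k) → 0 < c0 → (∀ k ∈ act S, 0 < cc al k → c0 ≤ cc al k) →
    (∀ k ∈ S, 1 ≤ F k ∧ (∀ t, F k ≤ gg b al t k) ∧
      ((k ∉ act S ∨ 0 < cc al k) → F k = 1) ∧
      (k ∈ act S → cc al k = 0 → F k ^ 2 - F (k - 1) * F (k + 1) = F k)) →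
    ∃ C : ℝ, ∀ t, ∀ k ∈ S, |gg b al t k - F k| ≤ C * Real.exp (-(c0 * 2 ^ t))

/-- Assembly of the asymptotics: `Z = (act S).filter (0 < cc al ·)`, `c0` = the minimum of `cc al` on `Z`
(or `1` if `Z` is empty). -/
def StAN : Prop :=
  ∀ (S : Finset ℕ) (b : ℕ → ℝ), Per S b →
    ∃ (al F : ℕ → ℝ) (Z : Finset ℕ) (c0 C : ℝ), Dat S b al F Z c0 C

/-! ## AL: the limits are algebraic -/

/-- Algebraicity on one run.  PROOF. Polynomials `B_0 = 1, B_1 = X, B_2 = X^2 - X,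
B_(j+3) = X (B_(j+2) - B_(j+1)) + B_j` in `ℚ[X]`: `B_j` is monic of degree `j`.  With `w = B_j, y = B_(j+1),
z = B_(j+2)` the THREE identities `y^2 - w z - y = 0`, `z^2 + X y^2 - X y z - y w - z = 0`,
`w^2 + X y^2 - X y w - y z - w = 0` hold for all `j`: true for `j = 0`; for the step put
`v = X (z - y) + w`: the new first one is the old second one, the new third one is the old first one, and the
new second one is `X * (old second) + (old third) - X * (old first)` (all by `ring`).  In particular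
`B_(j+1)^2 - B_j B_(j+2) = B_(j+1)`.  Put `s = F (l+1)`.  By induction `F (l+j) = B_j(s)` for
`l + j ≤ r`, since `F(k+1) = (F k^2 - F k)/F(k-1)`, `F(k-1) ≥ 1`.  So ` (B_(r-l) - 1)(s) = 0` with `r - l ≥ 2`,
a nonzero polynomial: `s` is algebraic, hence all `F (l+j) = B_j(s)` are. -/
def StALG : Prop :=
  ∀ (l r : ℕ) (F : ℕ → ℝ), l + 2 ≤ r → F l = 1 → F r = 1 → (∀ k, l ≤ k → k ≤ r → 1 ≤ F k) →
    (∀ k, l < k → k < r → F k ^ 2 - F (k - 1) * F (k + 1) = F k) →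
    ∀ k, l ≤ k → k ≤ r → IsAlgebraic ℚ (F k)

/-- All limits are algebraic.  PROOF. Off `Y = act S \ Z` they are `1`.  For `k ∈ Y` let `l < k < r` be the
nearest sites not in `Y`: `l + 1 ∈ Y` so `l ∈ S` and `F l = 1`; same for `r`; apply `StALG`. -/
def StALF : Prop :=
  ∀ (S : Finset ℕ) (b al F : ℕ → ℝ) (Z : Finset ℕ) (c0 C : ℝ), Dat S b al F Z c0 C →
    ∀ k ∈ S, IsAlgebraic ℚ (F k)

/-! ## EX: asymptotic expansions -/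

/-- `AE` is closed under sums and products and contains constants of `K` and the `exp(-c_k 2^t)`.  PROOF.
Add / multiply the polynomials; for products use that `f` and the values of the polynomials are bounded
(`exp(-c_k 2^t) ∈ (0,1]`, `exp(-M 2^t) ≤ 1`). -/
def StAE1 : Prop :=
  ∀ (K : IntermediateField ℚ ℝ) (Z : Finset ℕ) (c : ℕ → ℝ) (M : ℝ), (∀ k ∈ Z, 0 ≤ c k) → 0 ≤ M →
    (∀ f g : ℕ → ℝ, AE K Z c M f → AE K Z c M g → AE K Z c M (fun t => f t + g t)) ∧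
    (∀ f g : ℕ → ℝ, AE K Z c M f → AE K Z c M g → AE K Z c M (fun t => f t * g t)) ∧
    (∀ a : ℝ, a ∈ K → AE K Z c M (fun _ => a)) ∧
    (∀ k ∈ Z, AE K Z c M (fun t => Real.exp (-(c k * 2 ^ t))))

/-- Shift.  PROOF. `exp(-c_k 2^(t+1)) = exp(-c_k 2^t)^2`: use `MvPolynomial.expand 2`. -/
def StAE2 : Prop :=
  ∀ (K : IntermediateField ℚ ℝ) (Z : Finset ℕ) (c : ℕ → ℝ) (M : ℝ) (f : ℕ → ℝ),
    AE K Z c M f → AE K Z c (2 * M) (fun t => f (t + 1))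

/-- Products of small functions gain.  PROOF. `f = p + r`, `g = q + s` with `r, s = O(exp(-M 2^t))`:
`f g - p q = f s + r q` and `q = g - s = O(exp(-c0 2^t))` as `M ≥ c0`. -/
def StAE3 : Prop :=
  ∀ (K : IntermediateField ℚ ℝ) (Z : Finset ℕ) (c : ℕ → ℝ) (M c0 : ℝ) (f g : ℕ → ℝ) (A B : ℝ),
    0 < c0 → c0 ≤ M → AE K Z c M f → AE K Z c M g →
    (∀ t : ℕ, |f t| ≤ A * Real.exp (-(c0 * 2 ^ t))) →
    (∀ t : ℕ, |g t| ≤ B * Real.exp (-(c0 * 2 ^ t))) → AE K Z c (M + c0) (fun t => f t * g t)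

/-- Multiplication by `exp(-c_k 2^t)` gains; and weakening.  PROOF. Multiply the polynomial by `X k`. -/
def StAE4 : Prop :=
  ∀ (K : IntermediateField ℚ ℝ) (Z : Finset ℕ) (c : ℕ → ℝ) (M c0 : ℝ) (f : ℕ → ℝ), AE K Z c M f →
    (∀ k ∈ Z, c0 ≤ c k → AE K Z c (M + c0) (fun t => Real.exp (-(c k * 2 ^ t)) * f t)) ∧
    (∀ M' : ℝ, M' ≤ M → AE K Z c M' f)

/-- The linearisation is injective.  PROOF. Let `σ = τ / F` and `m = max_S |σ|`, attained at `k`; if `m > 0`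
then `k ∈ Y` and `2 F_k^2 σ_k = F_(k-1) F_(k+1) (σ_(k+1) + σ_(k-1))`, so `2 F_k^2 m ≤ 2 m (F_k^2 - F_k)`,
contradiction. -/
def StLAM : Prop :=
  ∀ (S Y : Finset ℕ) (F τ : ℕ → ℝ), Y ⊆ S → (∀ k ∈ Y, k - 1 ∈ S ∧ k + 1 ∈ S) → (∀ k ∈ S, 1 ≤ F k) →
    (∀ k ∈ Y, F k ^ 2 - F (k - 1) * F (k + 1) = F k) → (∀ k ∈ S, k ∉ Y → τ k = 0) →
    (∀ k ∈ Y, 2 * F k * τ k = F (k - 1) * τ (k + 1) + F (k + 1) * τ (k - 1)) → ∀ k ∈ S, τ k = 0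

/-- Solving the linear system inside `AE`.  PROOF. The matrix `A : Matrix S S K` of the left hand side has
entries in `K`; over `ℝ` it is injective (`StLAM`), so `det A ≠ 0` and `A⁻¹` has entries in `K`;
`θ t k = ∑_j (A⁻¹)_(k,j) R t j`; use `StAE1`. -/
def StSOL : Prop :=
  ∀ (K : IntermediateField ℚ ℝ) (Z : Finset ℕ) (c : ℕ → ℝ) (M : ℝ), (∀ k ∈ Z, 0 ≤ c k) → 0 ≤ M →
    ∀ (S Y : Finset ℕ) (F : ℕ → ℝ) (θ R : ℕ → ℕ → ℝ), Y ⊆ S → (∀ k ∈ Y, k - 1 ∈ S ∧ k + 1 ∈ S) →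
    (∀ k ∈ S, 1 ≤ F k) → (∀ k ∈ S, F k ∈ K) → (∀ k ∈ Y, F k ^ 2 - F (k - 1) * F (k + 1) = F k) →
    (∀ t, ∀ k ∈ S, k ∉ Y → 2 * θ t k = R t k) →
    (∀ t, ∀ k ∈ Y, 2 * F k * θ t k - F (k - 1) * θ t (k + 1) - F (k + 1) * θ t (k - 1) = R t k) →
    (∀ k ∈ S, AE K Z c M (fun t => R t k)) → ∀ k ∈ S, AE K Z c M (fun t => θ t k)

/-- All normalised iterates have expansions to every order.  PROOF. `θ t k = gg b al t k - F k`, which is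
`O(exp(-c0 2^t))`, so in `AE c0` (polynomial `0`).  Induction `M → M + c0` (start `M = c0`): by `StGR`
(`F k^2 - F(k-1)F(k+1) = F k` on `Y = act S \ Z`, where `cc = 0`; `F = 1` on `Z` and off `act S`):
`k ∈ Y`: `2 F_k θ_k - F_(k-1) θ_(k+1) - F_(k+1) θ_(k-1) = θ_k(t+1) - θ_k^2 + θ_(k-1) θ_(k+1)`;
`k ∈ Z`: `2 θ_k = θ_k(t+1) - θ_k^2 + exp(-c_k 2^t) g_(k-1) g_(k+1)`;  `k ∈ S \ act S`: `2 θ_k = θ_k(t+1) - θ_k^2`.
The right sides are in `AE (M + c0)` by `StAE1..4` (`θ_k(t+1) ∈ AE (2M)`, `M ≥ c0`); `StSOL`.  Finally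
`gg = F + θ`, and weaken for arbitrary `M`. -/
def StEXP : Prop :=
  ∀ (S : Finset ℕ) (b al F : ℕ → ℝ) (Z : Finset ℕ) (c0 C : ℝ) (K : IntermediateField ℚ ℝ),
    Dat S b al F Z c0 C → (∀ k ∈ S, F k ∈ K) → ∀ M : ℝ, ∀ k ∈ S, AE K Z (cc al) M (fun t => gg b al t k)

/-! ## RE: algebraic relations -/

/-- A rational basis.  PROOF. A maximal subset `J` of `Z` on which `c` is linearly independent over `ℚ`;
common denominator `D`. -/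
def StBAS : Prop :=
  ∀ (Z : Finset ℕ) (c : ℕ → ℝ), ∃ J ⊆ Z, (∀ m : ℕ → ℤ, ∑ k ∈ J, (m k : ℝ) * c k = 0 → ∀ k ∈ J, m k = 0) ∧
    ∃ D : ℕ, 0 < D ∧ ∃ m : ℕ → ℕ → ℤ, ∀ k ∈ Z, (D : ℝ) * c k = ∑ l ∈ J, (m k l : ℝ) * c l

/-- Counting the exponents.  PROOF. If `∑ α_k c_k < M` then `α_k ≤ M / c_min`; the sum is
`∑_l (n_l / D) c_l` with `n_l = ∑_k α_k m(k,l)`, `|n_l| ≤ C1 M`, so there are at most
` (2 C1 M + 1)^|J|` values. -/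
def StCNT : Prop :=
  ∀ (Z J : Finset ℕ) (c : ℕ → ℝ) (D : ℕ) (m : ℕ → ℕ → ℤ), (∀ k ∈ Z, 0 < c k) → 0 < D →
    (∀ k ∈ Z, (D : ℝ) * c k = ∑ l ∈ J, (m k l : ℝ) * c l) →
    ∃ C : ℕ, ∀ M : ℕ, ∃ V : Finset ℝ, V.card ≤ (C * (M + 1)) ^ J.card ∧
      ∀ α : ℕ → ℕ, ∑ k ∈ Z, (α k : ℝ) * c k < M → ∑ k ∈ Z, (α k : ℝ) * c k ∈ V

/-- Linear algebra.  PROOF. Let `p e` be the polynomials of `Q e`.  The `ℚ`-linear map
` (ι → ℚ) → (V → K)`, `a ↦ (s ↦ ∑_e a_e ∑_{α ∈ supp (p e), s(α) = s} coeff_α (p e))`, `s(α) = ∑ α_k c_k`, has a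
nonzero kernel element by dimensions; clear denominators.  In `∑ a_e p_e` the monomials with `s(α) < M`
cancel when grouped by the value `s(α) ∈ V` (the monomial equals `exp(-s(α) 2^t)`), the others are
`≤ exp(-M 2^t)`. -/
def StLIN : Prop :=
  ∀ (K : IntermediateField ℚ ℝ) (_ : FiniteDimensional ℚ K) (Z : Finset ℕ) (c : ℕ → ℝ) (M : ℝ)
    (V : Finset ℝ), (∀ k ∈ Z, 0 < c k) →
    (∀ α : ℕ → ℕ, ∑ k ∈ Z, (α k : ℝ) * c k < M → ∑ k ∈ Z, (α k : ℝ) * c k ∈ V) →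
    ∀ (ι : Type) (_ : Fintype ι) (Q : ι → ℕ → ℝ), (∀ e, AE K Z c M (Q e)) →
      Module.finrank ℚ K * V.card < Fintype.card ι →
      ∃ a : ι → ℤ, a ≠ 0 ∧ ∃ C : ℝ, ∀ t : ℕ, |∑ e, (a e : ℝ) * Q e t| ≤ C * Real.exp (-(M * 2 ^ t))

/-- THE RELATION.  PROOF. `K = ℚ(F_k : k ∈ S)` is finite over `ℚ` (`StALF`).  `al k ≥ 0` on `S` (values are
positive integers, `gg ≥ exp(-(2^t al k))` is bounded).  Fix `N`, `W = insert i J` (`i ∉ Z`, `J ⊆ Z`),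
`ι = W → Fin (N+1)`; for `e : ι` let `Q_e(t) = ∏_{k ∈ W} (E_k(t) g_(k-1) g_(k+1))^(e k) (g_k^2)^(N - e k)`,
`E_k = exp(-cc_k 2^t)` (`= 1` for `k = i`), in `AE M` for all `M ≥ 0` (`StEXP`, `StAE1`).  Since
`b_k = exp(2^t al_k) g_k`: `∏_{k ∈ W} (b_(k-1) b_(k+1))^(e k) (b_k^2)^(N - e k) = exp(2^t 2N ∑_W al_k) Q_e(t)`.
Take `M = A N + 1`, `A = ⌈2 ∑_W al_k⌉`: by `StCNT`, `finrank * card V ≤ finrank * (C(AN+2))^|J| <
(N+1)^(|J|+1) = card ι` for `N` large.  `StLIN` gives integers `a_e`, not all zero, with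
`|∑ a_e ∏_W ...| ≤ exp(2^t 2N ∑ al) C exp(-M 2^t) → 0`; the left side is an integer, so it is `0` for large
`t`.  Multiply by `∏_{k ∈ Z \ J} (b_k^2)^N`.  `P = ∑ a_e X^e`. -/
def StREL : Prop :=
  ∀ (S : Finset ℕ) (b0 : ℕ → ℤ) (al F : ℕ → ℝ) (Z : Finset ℕ) (c0 C : ℝ),
    Dat S (fun k => (b0 k : ℝ)) al F Z c0 C → ∀ (J : Finset ℕ) (D : ℕ) (m : ℕ → ℕ → ℤ), J ⊆ Z → 0 < D →
    (∀ k ∈ Z, (D : ℝ) * cc al k = ∑ l ∈ J, (m k l : ℝ) * cc al l) → ∀ i ∈ act S \ Z,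
    ∃ (N : ℕ) (P : MvPolynomial ℕ ℤ), P ≠ 0 ∧
      (∀ e ∈ P.support, (∀ k, e k ≤ N) ∧ (∀ k, e k ≠ 0 → k ∈ insert i J)) ∧
      ∀ᶠ t in atTop, ∑ e ∈ P.support, P.coeff e *
        ∏ k ∈ insert i Z, (((T^[t] b0) (k - 1) * (T^[t] b0) (k + 1)) ^ (e k) *
          ((T^[t] b0) k ^ 2) ^ (N - e k)) = 0

/-- Limits of the ratios.  PROOF. `uu b t k = exp(-(2^t cc al k)) g_(k-1) g_(k+1) / g_k^2` with `g = gg b al t`,
which tends to `F`; on `Z` the exponential tends to `0`; on `act S \ Z` the limit is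
`F(k-1) F(k+1) / F_k^2 = (F_k^2 - F_k)/F_k^2 = 1 - 1/F_k`, which is `> 0` because `F(k-1) F(k+1) ≥ 1`. -/
def StUL : Prop :=
  ∀ (S : Finset ℕ) (b al F : ℕ → ℝ) (Z : Finset ℕ) (c0 C : ℝ), Dat S b al F Z c0 C →
    (∀ k ∈ Z, Tendsto (fun t => uu b t k) atTop (𝓝 0)) ∧
    (∀ k ∈ act S \ Z, Tendsto (fun t => uu b t k) atTop (𝓝 (1 - 1 / F k)) ∧
      0 < 1 - 1 / F k ∧ 1 - 1 / F k < 1)

/-- Dominance.  PROOF. `s(e) = ∑_{k ∈ Z} e_k cc_k`; choose `γ ∈ E` with `s(γ)` minimal.  If `s(e) = s(γ)`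
then `∑_{k ∈ J} (e_k - γ_k) cc_k = 0` (exponents vanish on `Z \ J`), so `e = γ` on `J` and on `Z`.
If `s(e) > s(γ)`: the quotient is `exp(-(2^t (s(e) - s(γ))))` times
`∏ (g_(k-1) g_(k+1)/g_k^2)^(e_k - γ_k)`, which is bounded. -/
def StDOM : Prop :=
  ∀ (S : Finset ℕ) (b al F : ℕ → ℝ) (Z : Finset ℕ) (c0 C : ℝ), Dat S b al F Z c0 C →
    ∀ J ⊆ Z, (∀ m : ℕ → ℤ, ∑ k ∈ J, (m k : ℝ) * cc al k = 0 → ∀ k ∈ J, m k = 0) →
    ∀ E : Finset (ℕ →₀ ℕ), E.Nonempty → (∀ e ∈ E, ∀ k ∈ Z, e k ≠ 0 → k ∈ J) →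
    ∃ γ ∈ E, ∀ e ∈ E, (∀ k ∈ Z, e k = γ k) ∨
      Tendsto (fun t => (∏ k ∈ Z, uu b t k ^ (e k)) / ∏ k ∈ Z, uu b t k ^ (γ k)) atTop (𝓝 0)

/-! ## CE: existence of certificates -/

/-- The leading polynomial of an entry. -/
noncomputable def lp (Zs : List ℕ) (i : ℕ) (ga : List ℕ) (p : Pol) : Polynomial ℤ :=
  (p.map (fun ce => if (∀ k ∈ Zs, ex ce.2 k = ex ga k) then
    Polynomial.C ce.1 * Polynomial.X ^ (ex ce.2 i) else 0)).sum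

/-- The symbolic part of a certificate. -/
structure Sym (S : Finset ℕ) (b0 : ℕ → ℤ) (Zs : List ℕ) (N : ℕ) (ents : List Ent) (p : ℕ → ℝ) : Prop where
  per : Per S (fun k => (b0 k : ℝ))
  cov : ∀ k ∈ act S, (∃ z ∈ Zs, z = k) ∨ (∃ en ∈ ents, en.1 = k)
  zs : ∀ k ∈ Zs, k ∈ act S
  es : ∀ en ∈ ents, en.1 ∈ act S ∧ ¬ ∃ z ∈ Zs, z = en.1
  p01 : ∀ en ∈ ents, 0 < p en.1 ∧ p en.1 < 1
  pz : ∀ k, (¬ ∃ en ∈ ents, en.1 = k) → p k = 0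
  pf : ∀ en ∈ ents, p en.1 * (1 - p (en.1 - 1)) * (1 - p (en.1 + 1)) = (1 - p en.1) ^ 2
  lz : ∀ k ∈ Zs, Tendsto (fun t => uu (fun k => (b0 k : ℝ)) t k) atTop (𝓝 0)
  le : ∀ en ∈ ents, Tendsto (fun t => uu (fun k => (b0 k : ℝ)) t en.1) atTop (𝓝 (p en.1))
  ex1 : ∀ en ∈ ents, (∀ k ∈ Zs, ex en.2.1 k ≤ N) ∧ ∀ ce ∈ en.2.2,
    (∀ k ∈ Zs, ex ce.2 k ≤ N) ∧ ex ce.2 en.1 ≤ N
  dom : ∀ en ∈ ents, ∀ ce ∈ en.2.2, (∀ k ∈ Zs, ex ce.2 k = ex en.2.1 k) ∨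
    Tendsto (fun t => ((mon Zs N ce.2 (T^[t] b0) : ℤ) : ℝ) / ((mon Zs N en.2.1 (T^[t] b0) : ℤ) : ℝ))
      atTop (𝓝 0)
  lpn : ∀ en ∈ ents, lp Zs en.1 en.2.1 en.2.2 ≠ 0
  zero : ∀ en ∈ ents, ∀ᶠ t in atTop, PT (Zs ++ [en.1]) N en.2.2 (T^[t] b0) = 0

/-- Existence of the symbolic part.  PROOF. `StAN`, `StBAS` (with `c = cc al`), `StREL` for every
`i ∈ act S \ Z`, `StDOM` with `E` = the support of `P_i`, `StUL`.  `Zs = Z.toList`, `N` = the maximum of the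
`N_i` (raising `N` multiplies the relation by `∏ (b_k^2)^(N - N_i)`), entry ` (i, codes)` with
`code e = (List.range n).map e`, `n > ` all sites, `P_i` coded by its support list;
`p i = 1 - 1/F i` at the entries and `0` elsewhere; since `F = 1` on `S` off the entries, `1 - p k = 1/F k`
for all `k ∈ S`, so `pf` is `F i^2 - F i = F(i-1) F(i+1)`.  `mon Zs N e b = ∏ b_k^(2N) ∏ u_k^(e k)`, so `dom` is
`StDOM`.  `lpn`: the exponents `e` in the support with the same `Z`-part as `γ` have different `e i`, so the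
leading polynomial has the nonzero coefficient `P.coeff γ`. -/
def StSYM : Prop :=
  ∀ (S : Finset ℕ) (b0 : ℕ → ℤ), Per S (fun k => (b0 k : ℝ)) →
    ∃ (Zs : List ℕ) (N : ℕ) (ents : List Ent) (p : ℕ → ℝ), Sym S b0 Zs N ents p

/-- Numbers.  PROOF. Let `φ(y,a,b) = y^2 (1-a)(1-b)/(1-y)^2`; `φ(p_i, p_(i-1), p_(i+1)) = p_i` for all entry
sites.  Choose `κ > 0` such that `[p_i - κ, p_i + κ] ⊆ (0,1)` and the leading polynomial has no zero in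
`0 < |Y - p_i| ≤ κ` (all entries); then `ε < κ/2` such that `|φ(y,a,b) - p_i| < κ/2` when `|y - p_i|, |a - p_(i-1)|,
|b - p_(i+1)| ≤ 2 ε`.  Boxes: `lo_i/D ∈ (p_i - 2ε, p_i - ε)`, `hi_i/D ∈ (p_i + ε, p_i + 2ε)`,
`lo2_i/D ∈ (p_i - κ, p_i - κ/2)`, `hi2_i/D ∈ (p_i + κ/2, p_i + κ)` for `D` large, `lo = hi = 0` at inactive
sites, `lo = 0, hi = e0` on `Zs`.  `Cc` with `1 ≤ Cc (1 - max hi/D)^2` uniformly; `m0 > 0` = minimum of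
`|lp_i|` on `ε ≤ |Y - p_i| ≤ κ`; `δ` small: `δ nrm < m0/2`, `δ Cc^(2N|Zs|+1) ≤ 1`, `δ ≤ 2 ε`;
`e0 = ⌊δ D⌋ ≥ 1` for `D` large; `Mg` large: `N nrm/(Mg D) < m0/2`.  (`P0(m)/X^N = lp(m/X)`.)  The list
values are indexed by the site (` (List.range (n+1)).map ...`). -/
def StBOX : Prop :=
  ∀ (n N : ℕ) (Zs : List ℕ) (ents : List Ent) (p : ℕ → ℝ),
    (∀ en ∈ ents, 1 ≤ en.1 ∧ en.1 + 1 < n ∧ ¬ ∃ z ∈ Zs, z = en.1) →
    (∀ en ∈ ents, 0 < p en.1 ∧ p en.1 < 1) → (∀ k, (¬ ∃ en ∈ ents, en.1 = k) → p k = 0) →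
    (∀ en ∈ ents, p en.1 * (1 - p (en.1 - 1)) * (1 - p (en.1 + 1)) = (1 - p en.1) ^ 2) →
    (∀ en ∈ ents, ∀ ce ∈ en.2.2, ex ce.2 en.1 ≤ N) →
    (∀ en ∈ ents, lp Zs en.1 en.2.1 en.2.2 ≠ 0) →
    ∃ (D e0 Cc Mg : ℕ) (lo hi lo2 hi2 : List ℕ), 0 < e0 ∧ okB n D e0 Cc Zs lo hi ents ∧
      okO D lo hi lo2 hi2 ents ∧ okM D e0 N Mg Zs lo hi lo2 hi2 ents ∧ okD D e0 N Cc Mg Zs ∧
      ∀ en ∈ ents, (ex lo en.1 : ℝ) < D * p en.1 ∧ D * p en.1 < (ex hi en.1 : ℝ)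

/-- Noetherianity.  PROOF. The ideals `I_s = span {Φ^j (P b) : j ≤ s}` increase, so `I_(s+1) = I_s` for some
`s` (`MvPolynomial (Fin n) ℤ` is Noetherian) and `Φ^(s+1)(P a) ∈ I_s`. -/
def StNOE : Prop :=
  ∀ (n : ℕ) (Φ : MvPolynomial (Fin n) ℤ →+* MvPolynomial (Fin n) ℤ) (m : ℕ)
    (P : Fin m → MvPolynomial (Fin n) ℤ), ∃ s : ℕ, ∀ a, ∃ q : ℕ → Fin m → MvPolynomial (Fin n) ℤ,
      Φ^[s + 1] (P a) = ∑ j ∈ Finset.range (s + 1), ∑ b, q j b * Φ^[j] (P b)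

/-- Codes of polynomials.  PROOF. List the support; exponent lists of length `n`. -/
def StCOD : Prop :=
  ∀ (n : ℕ) (q : MvPolynomial (Fin n) ℤ), ∃ c : Pol, ∀ (R : Type) (_ : CommRing R) (v : ℕ → R),
    evB c v = MvPolynomial.aeval (fun i : Fin n => v i) q

/-- Existence of the identities.  PROOF. In `A = MvPolynomial (Fin n) ℤ` let `G k = X_k` for `1 ≤ k < n` and
`G k = 0` otherwise, `Φ = aeval (fun i => T G i)`; `Φ (G k) = T G k` for all `k` (for `k ≥ n` and `k = 0` both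
are `0`), so `Φ^j (PT W N p G) = PT W N p (T^[j] G)` (`PT_map`, `T_map`).  `StNOE` for `P_a = PT (Zs ++ [i_a]) N p_a G`,
`StCOD` for the `q`s.  The identity in `A` specialises (`X_k ↦ v_k`) to `idl` at the points `gv n Dg m` for
every `Dg` (`sq (gv ..) 0 = 0`, zero beyond `n`).  `Dq` = maximum of the exponent sums, then `Dg`. -/
def StIDE : Prop :=
  ∀ (n N : ℕ) (Zs : List ℕ) (ents : List Ent), ∃ (s Dq Dg : ℕ) (qs : List (List (List Pol))),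
    okI n N s Dq Dg Zs ents qs

/-- Eventually the support is constant.  PROOF. If `x_k = 0` then ` (T x)_k = - x_(k-1) x_(k+1) ≤ 0`, so `= 0`:
the supports decrease; they are subsets of `range l.length`; take the eventual one. -/
def StSUP : Prop :=
  ∀ l : List ℤ, sq l 0 = 0 → (∀ t k, 0 ≤ (T^[t] (sq l)) k) →
    ∃ (t1 : ℕ) (S : Finset ℕ), Per S (fun k => (((T^[t1] (sq l)) k : ℤ) : ℝ)) ∧ ∀ k ∈ S, k < l.length

/-- COMPLETENESS.  PROOF. `StSUP` gives `t1, S`; `StSYM` for `b0 = T^[t1] (sq l)`; `StBOX` with `n = l.length`;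
`StIDE`.  For all large `t` the certificate is accepted for `TL^[t1 + t] l`: `okS`, `okC` from `Per` (`k ∈ act S`
iff both neighbours and `k` are positive; a zero has a zero neighbour because the next iterate is `0`),
`okZ`: `uu → 0`, `e0 > 0`; `okY`: `uu → p`; `okR`: `dom` (divide by `mon .. > 0`; tends to `0 < e0/D`);
`okP`: `zero` at the times `t, ..., t + s`. -/
def StCMP : Prop :=
  ∀ l : List ℤ, sq l 0 = 0 → (∀ t k, 0 ≤ (T^[t] (sq l)) k) → ∃ (t : ℕ) (c : Cert), chk (TL^[t] l) c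

/-! ## SN: soundness -/

/-- The identities hold everywhere.  PROOF. In `A = MvPolynomial (Fin n) ℤ` with `G` as in `StIDE` let `R_a` be the
difference of the two sides of `idn` at `G`.  `totalDegree (T^[j] G k) ≤ 2^j`, so
`totalDegree (PT W N p (T^[j] G)) ≤ 2 N |W| 2^j` (exponents: note ` (b_(k-1) b_(k+1))^e (b_k^2)^(N-e)` has
degree `2 max(e,N)`, so the bound uses `e ≤ N`: hypothesis), `totalDegree (evB q G) ≤ Dq`.  So `R_a` has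
degree `≤ Dg` in each variable and vanishes on `{0..Dg}^n` (the value at site `0` is irrelevant, and
every point of the grid is `gv n Dg m` with `m < (Dg+1)^n` up to its `0`-th coordinate): `R_a = 0`
(`MvPolynomial.eq_zero_of_eval_zero_at_prod_finset` or similar).  Specialise. -/
def StSI : Prop :=
  ∀ (n N s Dq Dg : ℕ) (Zs : List ℕ) (ents : List Ent) (qs : List (List (List Pol))),
    (∀ en ∈ ents, ∀ ce ∈ en.2.2, (∀ k ∈ Zs, ex ce.2 k ≤ N) ∧ ex ce.2 en.1 ≤ N) →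
    okI n N s Dq Dg Zs ents qs → ∀ v : ℕ → ℤ, v 0 = 0 → (∀ k, n ≤ k → v k = 0) →
    ∀ a < ents.length, idn N s Zs ents qs v a

/-- The polynomials vanish along the whole orbit.  PROOF. `v = T^[t] (sq l)` has `v 0 = 0` and vanishes beyond
`l.length`.  Strong induction on `t`: for `t ≤ s` it is `okP` (`sq_TL_iter`), for `t = t' + s + 1` use `StSI`
at `T^[t'] (sq l)`: every term of the right side has the factor `PT .. (T^[j] (T^[t'] ..)) = 0`, `t' + j < t`. -/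
def StST : Prop :=
  ∀ (l : List ℤ) (N s Dq Dg : ℕ) (Zs : List ℕ) (ents : List Ent) (qs : List (List (List Pol))),
    sq l 0 = 0 → (∀ en ∈ ents, ∀ ce ∈ en.2.2, (∀ k ∈ Zs, ex ce.2 k ≤ N) ∧ ex ce.2 en.1 ≤ N) →
    okI l.length N s Dq Dg Zs ents qs → okP l N s Zs ents →
    ∀ t, ∀ en ∈ ents, PT (Zs ++ [en.1]) N en.2.2 (T^[t] (sq l)) = 0

/-- The region of a certificate. -/
structure Rg (n D e0 N : ℕ) (Zs lo hi : List ℕ) (ents : List Ent) (b : ℕ → ℤ) : Prop where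
  z0 : b 0 = 0
  out : ∀ k, n ≤ k → b k = 0
  nn : ∀ k, 0 ≤ b k
  zz : ∀ k, b k = 0 → b (k - 1) * b (k + 1) = 0
  cl : ∀ k, (∃ z ∈ Zs, z = k) ∨ (∃ en ∈ ents, en.1 = k) ∨ b (k - 1) * b (k + 1) = 0
  hz : ∀ k ∈ Zs, k < n ∧ 0 < b (k - 1) * b (k + 1) ∧ (D : ℤ) * (b (k - 1) * b (k + 1)) ≤ e0 * b k ^ 2
  hy : ∀ en ∈ ents, en.1 < n ∧ 0 < b (en.1 - 1) * b (en.1 + 1) ∧
    (ex lo en.1 : ℤ) * b en.1 ^ 2 ≤ D * (b (en.1 - 1) * b (en.1 + 1)) ∧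
    (D : ℤ) * (b (en.1 - 1) * b (en.1 + 1)) ≤ ex hi en.1 * b en.1 ^ 2
  hr : ∀ en ∈ ents, ∀ ce ∈ en.2.2, (∀ k ∈ Zs, ex ce.2 k = ex en.2.1 k) ∨
    (D : ℤ) * mon Zs N ce.2 b ≤ e0 * mon Zs N en.2.1 b

/-- Ratios in the region.  PROOF. If `b k > 0`: for `k ∈ Zs` or an entry site `b(k-1) b(k+1) ≤ (hi_k/D) b_k^2`
with `hi_k < D` (`okB`; `hi_k = e0` on `Zs`), otherwise the product is `0`.  (Sites `≥ n` have `b k = 0`.)
Lower bound similarly (`lo_k = 0` on `Zs` and at inactive sites).  So `T b k > 0`; if `b k = 0` then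
`T b k = 0` by `zz`. -/
def StSA : Prop :=
  ∀ (n D e0 Cc N : ℕ) (Zs lo hi : List ℕ) (ents : List Ent) (b : ℕ → ℤ),
    okB n D e0 Cc Zs lo hi ents → Rg n D e0 N Zs lo hi ents b →
    (∀ k, (0 < b k → 0 < T b k) ∧ (b k = 0 → T b k = 0)) ∧
    (∀ k, 0 < b k → (ex lo k : ℤ) * b k ^ 2 ≤ D * (b (k - 1) * b (k + 1)) ∧
      (D : ℤ) * (b (k - 1) * b (k + 1)) ≤ ex hi k * b k ^ 2 ∧
      ((D : ℤ) - ex hi k) * b k ^ 2 ≤ D * T b k ∧ (D : ℤ) * T b k ≤ (D - ex lo k) * b k ^ 2)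

/-- The ratio of the next iterate.  PROOF. For `b k > 0` with positive neighbours, `u = b(k-1) b(k+1)/b_k^2`,
`T b j = (1 - u_j) b_j^2`: `T b (k-1) T b (k+1) (b_k^2)^2 = (1-u_(k-1))(1-u_(k+1)) u_k^2 (b_k^2)^4 ...`;
` (T b k)^2 = (1-u_k)^2 b_k^4`.  With ` (D - hi)/D ≤ 1 - u ≤ (D - lo)/D` (`StSA`) and `D^2 ≤ Cc (D - hi_k)^2`:
`u_k^2 / Cc ≤ u'_k ≤ Cc u_k^2`, i.e. the two inequalities (note `1 - u_(k±1) ≥ (D - hi)/D`, and the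
product of two such factors is `≥ 1/Cc` because each square is; ` (1 - u_k)^2 ≤ 1`). -/
def StSU : Prop :=
  ∀ (n D e0 Cc N : ℕ) (Zs lo hi : List ℕ) (ents : List Ent) (b : ℕ → ℤ), 0 < D →
    okB n D e0 Cc Zs lo hi ents → Rg n D e0 N Zs lo hi ents b →
    ∀ k, 0 < b (k - 1) → 0 < b k → 0 < b (k + 1) →
      (T b (k - 1) * T b (k + 1)) * (b k ^ 2) ^ 2 ≤ Cc * (b (k - 1) * b (k + 1)) ^ 2 * T b k ^ 2 ∧
      (b (k - 1) * b (k + 1)) ^ 2 * T b k ^ 2 ≤ Cc * (T b (k - 1) * T b (k + 1)) * (b k ^ 2) ^ 2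

/-- `Z`-sites and outer boxes for the next iterate.  PROOF. `k ∈ Zs`: `u' ≤ Cc u^2 ≤ Cc (e0/D)^2 ≤ e0/D` since
`Cc e0 ≤ D` (`okD`, `Cc ≥ 1`) (`StSU`).  Entries: `u' = u_i^2 (1-u_(i-1))(1-u_(i+1))/(1-u_i)^2` is increasing
in `u_i` and decreasing in the neighbours; insert the bounds of `StSA` and use `okO`. -/
def StSO : Prop :=
  ∀ (n D e0 Cc Mg N : ℕ) (Zs lo hi lo2 hi2 : List ℕ) (ents : List Ent) (b : ℕ → ℤ),
    okB n D e0 Cc Zs lo hi ents → okO D lo hi lo2 hi2 ents → okD D e0 N Cc Mg Zs →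
    Rg n D e0 N Zs lo hi ents b →
    (∀ k ∈ Zs, (D : ℤ) * (T b (k - 1) * T b (k + 1)) ≤ e0 * T b k ^ 2) ∧
    (∀ en ∈ ents, (ex lo2 en.1 : ℤ) * T b en.1 ^ 2 ≤ D * (T b (en.1 - 1) * T b (en.1 + 1)) ∧
      (D : ℤ) * (T b (en.1 - 1) * T b (en.1 + 1)) ≤ ex hi2 en.1 * T b en.1 ^ 2)

/-- Monomial inequalities for the next iterate.  PROOF. `mon Zs N e b = ∏ b_k^(2N) ∏ u_k^(e k)` (`e k ≤ N` on
`Zs`).  By `StSU` `u'_k ∈ [u_k^2/Cc, Cc u_k^2]`, so `u'^e ≤ Cc^(N|Zs|) (u^e)^2 ≤ Cc^(N|Zs|) (e0/D)^2 (u^γ)^2 ≤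
Cc^(2N|Zs|) (e0/D)^2 u'^γ ≤ (e0/D) u'^γ` (`okD`). -/
def StSM : Prop :=
  ∀ (n D e0 Cc Mg N : ℕ) (Zs lo hi : List ℕ) (ents : List Ent) (b : ℕ → ℤ),
    okB n D e0 Cc Zs lo hi ents → okD D e0 N Cc Mg Zs → Rg n D e0 N Zs lo hi ents b →
    ∀ e ga : List ℕ, (∀ k ∈ Zs, ex e k ≤ N ∧ ex ga k ≤ N) →
      (D : ℤ) * mon Zs N e b ≤ e0 * mon Zs N ga b → (D : ℤ) * mon Zs N e (T b) ≤ e0 * mon Zs N ga (T b)

/-- The shell argument.  PROOF. `u_k = b(k-1) b(k+1)/b_k^2`, `Y = u_i ∈ [lo2/D, hi2/D]`, `hi2 ≤ D`.  Divide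
`PT = 0` by `∏_{Zs} b_k^(2N) b_i^(2N) u^γ`: the leading terms give `lp(Y)` and the others are at most
` (e0/D) nrm` in absolute value (`Y ∈ [0,1]`).  If `Y < lo/D` (or `> hi/D`), let `X = Mg D` and `m = ⌊Y X⌋`
(resp. `⌈Y X⌉`): `m` is in the range of `okM`, `|lp(Y) - lp(m/X)| ≤ N nrm / X`, so
`D |P0(m)| ≤ e0 nrm X^N + D N nrm X^(N-1)`, contradicting `okM`. -/
def StSH : Prop :=
  ∀ (D e0 N Mg : ℕ) (Zs lo hi lo2 hi2 : List ℕ) (ents : List Ent) (b : ℕ → ℤ), 0 < D → 0 < Mg →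
    okM D e0 N Mg Zs lo hi lo2 hi2 ents → ∀ en ∈ ents, ex hi2 en.1 ≤ D →
    (∀ k ∈ Zs, 0 < b k ∧ 0 < b (k - 1) * b (k + 1)) → 0 < b en.1 → 0 < b (en.1 - 1) * b (en.1 + 1) →
    (∀ k ∈ Zs, ex en.2.1 k ≤ N) →
    (∀ ce ∈ en.2.2, (∀ k ∈ Zs, ex ce.2 k ≤ N) ∧ ex ce.2 en.1 ≤ N ∧
      ((∀ k ∈ Zs, ex ce.2 k = ex en.2.1 k) ∨ (D : ℤ) * mon Zs N ce.2 b ≤ e0 * mon Zs N en.2.1 b)) →
    PT (Zs ++ [en.1]) N en.2.2 b = 0 →
    (ex lo2 en.1 : ℤ) * b en.1 ^ 2 ≤ D * (b (en.1 - 1) * b (en.1 + 1)) →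
    (D : ℤ) * (b (en.1 - 1) * b (en.1 + 1)) ≤ ex hi2 en.1 * b en.1 ^ 2 →
    (ex lo en.1 : ℤ) * b en.1 ^ 2 ≤ D * (b (en.1 - 1) * b (en.1 + 1)) ∧
      (D : ℤ) * (b (en.1 - 1) * b (en.1 + 1)) ≤ ex hi en.1 * b en.1 ^ 2

/-- SOUNDNESS.  PROOF. `Rg` holds for `sq l`; by induction it holds for all `T^[t] (sq l)`: `nn, zz, cl` and the
positivity of the products by `StSA` (the sets of zeros do not change), `hz`, outer boxes `StSO`, `hr`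
`StSM`, inner boxes `StSH` (with `StST`). -/
def StSND : Prop :=
  ∀ (l : List ℤ) (c : Cert), chk l c → ∀ t k, 0 ≤ (T^[t] (sq l)) k

/-! ## PR: the check is primitive recursive -/

/-- PROOF. Helper4.IL.IntPrim (`primrec_int_add`, `primrec_int_mul`, ...), `Primrec.list_map`, `nat_iterate`. -/
def StPR1 : Prop := Primrec (fun q : ℕ × List ℤ => TL^[q.1] q.2)

/-- PROOF. `List.prod` of a map as a `list_foldr`; powers of integers by `nat_rec`. -/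
def StPR2 : Prop :=
  Primrec (fun q : (List ℕ × ℕ) × (List ℕ × List ℤ) => (mon q.1.1 q.1.2 q.2.1 (sq q.2.2) : ℤ))

/-- PROOF. `StPR2`, sums as `list_foldr`. -/
def StPR3 : Prop :=
  Primrec (fun q : (List ℕ × ℕ) × (Pol × List ℤ) => (PT q.1.1 q.1.2 q.2.1 (sq q.2.2) : ℤ))

/-- PROOF. Same. -/
def StPR4 : Prop := Primrec (fun q : Pol × List ℤ => (evB q.1 (sq q.2) : ℤ))

/-- Sign, cover, `Z` and `Y` checks.  PROOF. `PrimrecRel.forall_mem_list`, `PrimrecRel.exists_mem_list`. -/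
def StPR5 : Prop :=
  PrimrecPred (fun l : List ℤ => okS l) ∧
  PrimrecPred (fun q : List ℤ × (List ℕ × List Ent) => okC q.1 q.2.1 q.2.2) ∧
  PrimrecPred (fun q : List ℤ × (ℕ × ℕ) × List ℕ => okZ q.1 q.2.1.1 q.2.1.2 q.2.2) ∧
  PrimrecPred (fun q : List ℤ × ℕ × (List ℕ × List ℕ) × List Ent =>
    okY q.1 q.2.1 q.2.2.1.1 q.2.2.1.2 q.2.2.2)

/-- Static checks.  PROOF. Same. -/
def StPR6 : Prop :=
  PrimrecPred (fun q : (ℕ × ℕ × ℕ × ℕ) × (List ℕ × List ℕ × List ℕ) × List Ent =>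
    okB q.1.1 q.1.2.1 q.1.2.2.1 q.1.2.2.2 q.2.1.1 q.2.1.2.1 q.2.1.2.2 q.2.2) ∧
  PrimrecPred (fun q : ℕ × (List ℕ × List ℕ × List ℕ × List ℕ) × List Ent =>
    okO q.1 q.2.1.1 q.2.1.2.1 q.2.1.2.2.1 q.2.1.2.2.2 q.2.2) ∧
  PrimrecPred (fun q : (ℕ × ℕ × ℕ) × (ℕ × ℕ) × List ℕ =>
    okD q.1.1 q.1.2.1 q.1.2.2 q.2.1.1 q.2.1.2 q.2.2)

/-- The shell check.  PROOF. First `nrm` and `P0` are primitive recursive. -/
def StPR7 : Prop :=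
  PrimrecPred (fun q : (ℕ × ℕ × ℕ × ℕ) × (List ℕ × List ℕ × List ℕ × List ℕ × List ℕ) × List Ent =>
    okM q.1.1 q.1.2.1 q.1.2.2.1 q.1.2.2.2 q.2.1.1 q.2.1.2.1 q.2.1.2.2.1 q.2.1.2.2.2.1 q.2.1.2.2.2.2 q.2.2)

/-- Monomial and vanishing checks.  PROOF. `StPR1`, `StPR2`, `StPR3`. -/
def StPR8 : Prop :=
  PrimrecPred (fun q : List ℤ × (ℕ × ℕ × ℕ) × List ℕ × List Ent =>
    okR q.1 q.2.1.1 q.2.1.2.1 q.2.1.2.2 q.2.2.1 q.2.2.2) ∧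
  PrimrecPred (fun q : List ℤ × (ℕ × ℕ) × List ℕ × List Ent =>
    okP q.1 q.2.1.1 q.2.1.2 q.2.2.1 q.2.2.2)

/-- The identity check.  PROOF. `StPR1`, `StPR3`, `StPR4`. -/
def StPR9 : Prop :=
  PrimrecPred (fun q : (ℕ × ℕ × ℕ × ℕ × ℕ) × (List ℕ × List Ent × List (List (List Pol))) =>
    okI q.1.1 q.1.2.1 q.1.2.2.1 q.1.2.2.2.1 q.1.2.2.2.2 q.2.1 q.2.2.1 q.2.2.2)

/-- PROOF. `StPR5..9`. -/
def StPRC : Prop := PrimrecPred (fun q : List ℤ × Cert => chk q.1 q.2)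

/-! ## FI: the decision procedure in the input format of the problem -/

open Pool.Agent.Helper4.IL

/-- Integer value of a coefficient list. -/
def evz (p : List ℤ) (n : ℕ) : ℤ := p.foldr (fun c acc => c + n * acc) 0

/-- `l = (0, w a_0, w a_1, ...)` is a scaled initial segment of the sequence described by `x`. -/
def ver (x : Inp) (w : ℕ) (l : List ℤ) : Prop :=
  0 < w ∧ sq l 0 = 0 ∧ x.2.length < l.length ∧
  (∀ k ∈ List.range x.2.length,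
    sq l (k + 1) * (((x.2.getD k (0, 0)).2 : ℤ) + 1) = w * (x.2.getD k (0, 0)).1) ∧
  (∀ n ∈ List.range l.length, n + x.2.length + 1 < l.length →
    ((List.range x.1.length).map (fun j => evz (x.1.getD j []) n * sq l (n + j + 1))).sum = 0)

/-- The last `d` values are zero. -/
def fin0 (x : Inp) (l : List ℤ) : Prop := ∀ j ∈ List.range x.2.length, sq l (l.length - 1 - j) = 0

/-- PROOF. As before. -/
def StVP : Prop :=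
  PrimrecPred (fun q : Inp × (ℕ × List ℤ) => ver q.1 q.2.1 q.2.2) ∧
  PrimrecPred (fun q : Inp × List ℤ => fin0 q.1 q.2)

/-- Meaning of `ver`.  PROOF. By strong induction `sq l (k+1) = w a_k` for `k + 1 < l.length`: for `k < d` the initial
value, otherwise the recurrence at `n = k - d` and `p_d(n) ≠ 0`.  If the last `d` entries are zero then
`a_k = 0` for `d` consecutive indices `l.length - 1 - d ≤ k < l.length - 1` and by the recurrence for all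
later ones.  (`d = 0`: `a = 0`.)  Conversely a sufficiently long segment, with `w` the product of the
denominators of its values, satisfies `ver`. -/
def StVER : Prop :=
  ∀ (x : Inp) (a : ℕ → ℚ), Std x → Sol x a →
    (∀ w l, ver x w l → (∀ k, k + 1 < l.length → (sq l (k + 1) : ℚ) = w * a k) ∧
      (fin0 x l → ∀ k, l.length ≤ k + 1 → a k = 0)) ∧
    (∀ m : ℕ, ∃ w l, m < l.length ∧ ver x w l ∧ ((∀ k, m ≤ k → a k = 0) → fin0 x l))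

/-- Transfer to the operator of the problem.  PROOF. Put `b 0 = 0`, `b (k+1) = w a_k`; `T b 0 = 0` and
`T b (k+1) = w^2 LC a k`, so ` (T^[t] b)(k+1) = w^(2^t) (LC^[t] a) k`.  ` (T^[t] b) k` depends only on
`b j`, `j ≤ k + t`; so if `sq l (k+1) = w a_k` for `k + 1 < l.length`, then
` (T^[t] (sq l)) (k+1) = w^(2^t) (LC^[t] a) k` for `k + 1 + t < l.length`, and for all `k` if moreover
`a_k = 0` for `l.length ≤ k + 1`. -/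
def StTRA : Prop :=
  ∀ (a : ℕ → ℚ) (w : ℕ) (l : List ℤ), 0 < w → sq l 0 = 0 →
    (∀ k, k + 1 < l.length → (sq l (k + 1) : ℚ) = w * a k) →
    (∀ t k, k + 1 + t < l.length → (((T^[t] (sq l)) (k + 1) : ℤ) : ℚ) = w ^ (2 ^ t) * (LC^[t] a) k) ∧
    ((∀ k, l.length ≤ k + 1 → a k = 0) →
      ∀ t k, (((T^[t] (sq l)) (k + 1) : ℤ) : ℚ) = w ^ (2 ^ t) * (LC^[t] a) k)

/-- THE THEOREM.  PROOF. Search (`Nat.rfindOpt`) over codes ` (w, l, t, k, c)`: if `ver x w l` and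
`k + 1 + t < l.length` and `sq (TL^[t] l) (k+1) < 0` answer `false`; if `ver x w l`, `fin0 x l`,
`chk (TL^[t] l) c` and `0 ≤ sq (TL^[j] l) k'` for ALL `j < t`, `k' < l.length` (the iterates before `t`
must be checked separately) answer `true`.  Correctness: `StVER`, `StTRA`, `StSND` (iterates from `t` on).
Halting: if ` (LC^[i] a) n < 0` take `l` longer than `n + 1 + i`; if `a` has finite support and is infinitely
log-concave take `l` with `fin0 x l`, then all `T^[t] (sq l)` are nonnegative (`StTRA`), `StCMP`. -/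
def StFIN : Prop :=
  ∃ g : Inp →. Bool, Partrec g ∧ ∀ x : Inp, Std x → ∀ a : ℕ → ℚ, Sol x a →
    (∀ β ∈ g x, (β = true ↔ InfLC a)) ∧
    ((∃ N, ∀ n, N ≤ n → a n = 0) → (g x).Dom) ∧ (¬ InfLC a → (g x).Dom)

end Pool.Agent.Helper99.DF
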